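import Pool.Agent.V5helper93.SMQ.Conv

/-!
# The definitions used in the statement
-/

set_option autoImplicit false
set_option linter.unusedSectionVars false

namespace Pool.Agent.V5helper93.SMQ

open Module Polynomial Pool.Agent.V5helper93.GTC

open Pool.Agent.V5helper93.SMP (BigImage prods ins ins_apply res mtens)

noncomputable section

section defs

variable {k T W Γ : Type} [Field k] [AddCommGroup T] [Module k T] [AddCommGroup W] [Module k W]
  [Group Γ]

/-- The endomorphisms of determinant one which preserve the form `B`. -/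
def isometries (B : T →ₗ[k] T →ₗ[k] k) : Set (Module.End k T) :=
  {g | (∀ u v, B (g u) (g v) = B u v) ∧ LinearMap.det g = 1}

/-- The value of the homogeneous polynomial function of degree `n` on `End T` given by the multilinear
form `φ` in `n` variables. -/
def polyValue {n : ℕ} (φ : MultilinearMap k (fun _ : Fin n => Module.End k T) k)
    (g : Module.End k T) : k := φ fun _ => g

/-- Every homogeneous polynomial function on `End T` which vanishes on the elements `ρ(s)` with
`τ(s) = 1` vanishes on the isometries of `B` of determinant one. -/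
def DenseImage (B : T →ₗ[k] T →ₗ[k] k) (ρ : Representation k Γ T) (τ : Representation k Γ W) :
    Prop :=
  ∀ (n : ℕ) (φ : MultilinearMap k (fun _ : Fin n => Module.End k T) k),
    (∀ s : Γ, τ s = 1 → polyValue φ (ρ s) = 0) → ∀ g ∈ isometries B, polyValue φ g = 0

theorem DenseImage.big {B : T →ₗ[k] T →ₗ[k] k} {ρ : Representation k Γ T}
    {τ : Representation k Γ W} (h : DenseImage B ρ τ) : BigImage B ρ τ :=
  fun n φ hφ g h1 h2 => h n φ hφ g ⟨h1, h2⟩

/-- The form `F` is the product of the values `B(v_{p_i}, v_{q_i})` and of a multilinear form in the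
other vectors of the tuple `v`. -/
def IsProduct (B : T →ₗ[k] T →ₗ[k] k) {c : ℕ} {σ : Type} (p q : Fin c → σ)
    (F : MultilinearMap k (fun _ : σ => T) k) : Prop :=
  ∃ ψ : MultilinearMap k (fun _ : {l : σ // ∀ i, l ≠ p i ∧ l ≠ q i} => T) k,
    ∀ v : σ → T, F v = (∏ i, B (v (p i)) (v (q i))) * ψ fun l => v l.1

/-- The span of the products of `c` values `B(v_{p_i}, v_{q_i})`, where the `2 c` indices `p_i`, `q_i` are
distinct, and of a form in the other vectors. -/
def pairProducts (B : T →ₗ[k] T →ₗ[k] k) (c : ℕ) (σ : Type) :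
    Submodule k (MultilinearMap k (fun _ : σ => T) k) :=
  Submodule.span k {F | ∃ p q : Fin c → σ, Function.Injective (Sum.elim p q) ∧ IsProduct B p q F}

/-- The sum over `c` of the spaces spanned by the maps `v ↦ h(v) • y`, where `h` is a product of `c` values
of `B` and of a form in the other vectors and `y` is in the step `ν - w c` of the Galois coniveau
filtration of `W` (in `W` if `w c ≥ ν`). -/
def productPart (B : T →ₗ[k] T →ₗ[k] k) (τ : Representation k Γ W) (P : Set (Γ × ℕ × ℕ))
    (w ν : ℕ) (σ : Type) : Submodule k (MultilinearMap k (fun _ : σ => T) W) :=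
  ⨆ c : ℕ, mtens (pairProducts B c σ) (coniv τ P (ν - w * c))

end defs

/-! ### comparison with the recursive definition -/

section compare

variable {k T : Type} [Field k] [AddCommGroup T] [Module k T] {B : T →ₗ[k] T →ₗ[k] k}

/-- extension of the indices -/
def ext2 {σ : Type} {c : ℕ} {a b : σ} (a' : σ) (p : Fin c → {l : σ // l ≠ a ∧ l ≠ b}) :
    Fin (c + 1) → σ := Fin.cons a' fun i => (p i).1

theorem ext2_zero {σ : Type} {c : ℕ} {a b : σ} (a' : σ) (p : Fin c → {l : σ // l ≠ a ∧ l ≠ b}) :
    ext2 a' p 0 = a' := rfl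

theorem ext2_succ {σ : Type} {c : ℕ} {a b : σ} (a' : σ) (p : Fin c → {l : σ // l ≠ a ∧ l ≠ b})
    (i : Fin c) : ext2 a' p i.succ = (p i).1 := rfl

/-- the other indices -/
def oth {σ : Type} {c : ℕ} {a b : σ} (p q : Fin c → {l : σ // l ≠ a ∧ l ≠ b}) :
    {l : σ // ∀ i, l ≠ ext2 a p i ∧ l ≠ ext2 b q i} ≃
      {l : {l : σ // l ≠ a ∧ l ≠ b} // ∀ i, l ≠ p i ∧ l ≠ q i} where
  toFun l := ⟨⟨l.1, l.2 0⟩, fun i => ⟨fun h => (l.2 i.succ).1 (congrArg Subtype.val h),
    fun h => (l.2 i.succ).2 (congrArg Subtype.val h)⟩⟩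
  invFun l := ⟨l.1.1, fun i => Fin.cases l.1.2
    (fun i => ⟨fun h => (l.2 i).1 (Subtype.ext h), fun h => (l.2 i).2 (Subtype.ext h)⟩) i⟩
  left_inv _ := rfl
  right_inv _ := rfl

theorem isProduct_ins {σ : Type} [DecidableEq σ] {c : ℕ} {a b : σ} (hab : a ≠ b)
    {p q : Fin c → {l : σ // l ≠ a ∧ l ≠ b}}
    {g : MultilinearMap k (fun _ : {l : σ // l ≠ a ∧ l ≠ b} => T) k} (h : IsProduct B p q g) :
    IsProduct B (ext2 a p) (ext2 b q) (ins hab B g) := by
  obtain ⟨ψ, hψ⟩ := h
  refine ⟨ψ.domDomCongr (oth p q).symm, fun v => ?_⟩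
  rw [ins_apply, hψ, Fin.prod_univ_succ, smul_eq_mul, mul_assoc]
  rfl

theorem inj_ext2 {σ : Type} {c : ℕ} {a b : σ} (hab : a ≠ b)
    {p q : Fin c → {l : σ // l ≠ a ∧ l ≠ b}} (h : Function.Injective (Sum.elim p q)) :
    Function.Injective (Sum.elim (ext2 a p) (ext2 b q)) := by
  have h1 : Function.Injective p := fun i j hij => Sum.inl_injective (h (a₁ := Sum.inl i)
    (a₂ := Sum.inl j) hij)
  have h2 : Function.Injective q := fun i j hij => Sum.inr_injective (h (a₁ := Sum.inr i)
    (a₂ := Sum.inr j) hij)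
  have h3 : ∀ i j, p i ≠ q j := fun i j hij => Sum.inl_ne_inr (h (a₁ := Sum.inl i)
    (a₂ := Sum.inr j) hij)
  rintro (i | i) (j | j) hij <;> simp only [Sum.elim_inl, Sum.elim_inr] at hij
  · congr 1
    induction i using Fin.cases with
    | zero =>
      induction j using Fin.cases with
      | zero => rfl
      | succ j => exact absurd hij.symm (p j).2.1
    | succ i =>
      induction j using Fin.cases with
      | zero => exact absurd hij (p i).2.1
      | succ j => exact congrArg Fin.succ (h1 (Subtype.ext hij))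
  · exfalso
    induction i using Fin.cases with
    | zero =>
      induction j using Fin.cases with
      | zero => exact hab hij
      | succ j => exact (q j).2.1 hij.symm
    | succ i =>
      induction j using Fin.cases with
      | zero => exact (p i).2.2 hij
      | succ j => exact h3 i j (Subtype.ext hij)
  · exfalso
    induction i using Fin.cases with
    | zero =>
      induction j using Fin.cases with
      | zero => exact hab hij.symm
      | succ j => exact (p j).2.2 hij.symm
    | succ i =>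
      induction j using Fin.cases with
      | zero => exact (q i).2.1 hij
      | succ j => exact h3 j i (Subtype.ext hij.symm)
  · congr 1
    induction i using Fin.cases with
    | zero =>
      induction j using Fin.cases with
      | zero => rfl
      | succ j => exact absurd hij.symm (q j).2.2
    | succ i =>
      induction j using Fin.cases with
      | zero => exact absurd hij (q i).2.2
      | succ j => exact congrArg Fin.succ (h2 (Subtype.ext hij))

theorem prods_le (c : ℕ) : ∀ (σ : Type) [DecidableEq σ], prods B c σ ≤ pairProducts B c σ := by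
  induction c with
  | zero =>
    intro σ _ F _
    refine Submodule.subset_span ⟨Fin.elim0, Fin.elim0, ?_, ?_⟩
    · rintro (i | i)
      · exact i.elim0
      · exact i.elim0
    · refine ⟨F.domDomCongr (Equiv.subtypeUnivEquiv fun _ i => i.elim0).symm, fun v => ?_⟩
      rw [Finset.univ_eq_empty, Finset.prod_empty, one_mul]
      rfl
  | succ c ih =>
    intro σ _
    refine Submodule.span_le.2 ?_
    rintro _ ⟨a, b, hab, g, hg, rfl⟩
    have h1 : pairProducts B c {l : σ // l ≠ a ∧ l ≠ b} ≤
        (pairProducts B (c + 1) σ).comap (ins hab B) := by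
      refine Submodule.span_le.2 ?_
      rintro g ⟨p, q, hpq, hg⟩
      exact Submodule.subset_span ⟨_, _, inj_ext2 hab hpq, isProduct_ins hab hg⟩
    exact h1 (ih _ hg)

theorem exists_prod (c : ℕ) : ∀ (σ : Type) [DecidableEq σ] (p q : Fin c → σ),
    Function.Injective (Sum.elim p q) →
    ∀ ψ : MultilinearMap k (fun _ : {l : σ // ∀ i, l ≠ p i ∧ l ≠ q i} => T) k,
      ∃ F ∈ prods B c σ, ∀ v : σ → T, F v = (∏ i, B (v (p i)) (v (q i))) * ψ fun l => v l.1 := by
  induction c with
  | zero =>
    intro σ _ p q _ ψ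
    refine ⟨ψ.domDomCongr (Equiv.subtypeUnivEquiv fun _ i => i.elim0), Submodule.mem_top,
      fun v => ?_⟩
    rw [Finset.univ_eq_empty, Finset.prod_empty, one_mul]
    rfl
  | succ c ih =>
    intro σ _ p q hpq ψ
    have hab : p 0 ≠ q 0 := fun h => Sum.inl_ne_inr (hpq (a₁ := Sum.inl 0) (a₂ := Sum.inr 0) h)
    have hp : ∀ i : Fin c, p i.succ ≠ p 0 ∧ p i.succ ≠ q 0 := fun i =>
      ⟨fun h => Fin.succ_ne_zero i (Sum.inl_injective (hpq (a₁ := Sum.inl i.succ)
        (a₂ := Sum.inl 0) h)), fun h => Sum.inl_ne_inr (hpq (a₁ := Sum.inl i.succ)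
        (a₂ := Sum.inr 0) h)⟩
    have hq : ∀ i : Fin c, q i.succ ≠ p 0 ∧ q i.succ ≠ q 0 := fun i =>
      ⟨fun h => Sum.inl_ne_inr (hpq (a₁ := Sum.inl 0) (a₂ := Sum.inr i.succ) h.symm),
        fun h => Fin.succ_ne_zero i (Sum.inr_injective (hpq (a₁ := Sum.inr i.succ)
        (a₂ := Sum.inr 0) h))⟩
    let p' : Fin c → {l : σ // l ≠ p 0 ∧ l ≠ q 0} := fun i => ⟨p i.succ, hp i⟩
    let q' : Fin c → {l : σ // l ≠ p 0 ∧ l ≠ q 0} := fun i => ⟨q i.succ, hq i⟩
    have hpe : ext2 (p 0) p' = p := by
      funext i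
      induction i using Fin.cases with
      | zero => rfl
      | succ i => rfl
    have hqe : ext2 (q 0) q' = q := by
      funext i
      induction i using Fin.cases with
      | zero => rfl
      | succ i => rfl
    have hpq' : Function.Injective (Sum.elim p' q') := by
      rintro (i | i) (j | j) hij <;>
        simp only [Sum.elim_inl, Sum.elim_inr, p', q', Subtype.mk.injEq] at hij
      · rw [Fin.succ_injective _ (Sum.inl_injective (hpq (a₁ := Sum.inl i.succ)
          (a₂ := Sum.inl j.succ) hij))]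
      · exact absurd (hpq (a₁ := Sum.inl i.succ) (a₂ := Sum.inr j.succ) hij) Sum.inl_ne_inr
      · exact absurd (hpq (a₁ := Sum.inr i.succ) (a₂ := Sum.inl j.succ) hij) Sum.inr_ne_inl
      · rw [Fin.succ_injective _ (Sum.inr_injective (hpq (a₁ := Sum.inr i.succ)
          (a₂ := Sum.inr j.succ) hij))]
    let e : {l : σ // ∀ i, l ≠ p i ∧ l ≠ q i} ≃
        {l : {l : σ // l ≠ p 0 ∧ l ≠ q 0} // ∀ i, l ≠ p' i ∧ l ≠ q' i} :=
      (Equiv.subtypeEquivRight fun l => by rw [hpe, hqe]).trans (oth p' q')
    obtain ⟨G, hG, hGv⟩ := ih {l : σ // l ≠ p 0 ∧ l ≠ q 0} p' q' hpq' (ψ.domDomCongr e)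
    refine ⟨ins hab B G, Submodule.subset_span ⟨_, _, hab, G, hG, rfl⟩, fun v => ?_⟩
    rw [ins_apply, hGv, Fin.prod_univ_succ, smul_eq_mul, mul_assoc]
    rfl

theorem prods_eq (c : ℕ) (σ : Type) [DecidableEq σ] : prods B c σ = pairProducts B c σ := by
  refine le_antisymm (prods_le c σ) (Submodule.span_le.2 ?_)
  rintro F ⟨p, q, hpq, ψ, hψ⟩
  obtain ⟨G, hG, hGv⟩ := exists_prod (B := B) c σ p q hpq ψ
  have h1 : F = G := MultilinearMap.ext fun v => by rw [hψ, hGv]
  rw [h1]
  exact hG

theorem tgt_eq {W Γ : Type} [AddCommGroup W] [Module k W] [Group Γ] (τ : Representation k Γ W)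
    (P : Set (Γ × ℕ × ℕ)) (w ν : ℕ) (σ : Type) [DecidableEq σ] :
    Pool.Agent.V5helper93.SMP.Tgt B τ P w σ ν = productPart B τ P w ν σ := by
  unfold productPart Pool.Agent.V5helper93.SMP.Tgt
  simp only [prods_eq]

end compare

end

end Pool.Agent.V5helper93.SMQ
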