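import Mathlib
import Pool.Agent.V5helper93.SMP.PolyB

/-!
# Eigenbases of similitudes
-/

set_option autoImplicit false
set_option linter.unusedSectionVars false

open Finset Module

namespace Pool.Agent.V5helper93.SMQ

open Pool.Agent.V5helper93.SMP.PT (Inv)

noncomputable section

variable {K V : Type} [Field K] [AddCommGroup V] [Module K V]

/-- A system of eigenvectors which is adapted to the form. -/
structure Sys (ε : ℤ) (B : V →ₗ[K] V →ₗ[K] K) (g : Module.End K V) {ι : Type} [DecidableEq ι]
    (e : ι → V) (bar : ι → ι) (s : ι → ℤ) (α : ι → K) : Prop where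
  hI : Inv ε bar s
  eig : ∀ x, g (e x) = α x • e x
  form : ∀ x y, B (e x) (e y) = if y = bar x then (s x : K) else 0

section

variable {ε : ℤ} {B : V →ₗ[K] V →ₗ[K] K} {g : Module.End K V} {ι : Type} [DecidableEq ι]
  [Fintype ι] {e : ι → V} {bar : ι → ι} {s : ι → ℤ} {α : ι → K} {μ : K}

theorem ss' (h : Sys ε B g e bar s α) (x : ι) : (s x : K) * (s x : K) = 1 := by
  rcases h.hI.sgn x with h | h <;> rw [h] <;> norm_num

theorem s0 (h : Sys ε B g e bar s α) (x : ι) : (s x : K) ≠ 0 := by
  intro h0
  have h1 := ss' h x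
  rw [h0, mul_zero] at h1
  exact zero_ne_one h1

theorem Sys.aa (h : Sys ε B g e bar s α) (hg : ∀ u v, B (g u) (g v) = μ * B u v) (x : ι) :
    α x * α (bar x) = μ := by
  have h1 := hg (e x) (e (bar x))
  rw [h.eig, h.eig] at h1
  simp only [map_smul, LinearMap.smul_apply, h.form, if_true, smul_eq_mul] at h1
  apply mul_right_cancel₀ (s0 h x)
  linear_combination h1

theorem Sys.indep (h : Sys ε B g e bar s α) : LinearIndependent K e := by
  rw [Fintype.linearIndependent_iff]
  intro c hc x
  have h1 := congrArg (fun v => B v (e (bar x))) hc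
  simp only [map_sum, map_smul, LinearMap.sum_apply, LinearMap.smul_apply, map_zero,
    LinearMap.zero_apply] at h1
  rw [Finset.sum_eq_single x] at h1
  · rw [h.form, if_pos rfl, smul_eq_mul] at h1
    exact (mul_eq_zero.1 h1).resolve_right (s0 h x)
  · intro y _ hy
    rw [h.form, if_neg, smul_zero]
    intro h2
    exact hy (by rw [← h.hI.inv y, ← h2, h.hI.inv])
  · intro h2
    exact absurd (Finset.mem_univ x) h2

/-- the projection to the orthogonal complement -/
def prj (B : V →ₗ[K] V →ₗ[K] K) (e : ι → V) (bar : ι → ι) (s : ι → ℤ) (v : V) : V :=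
  v - ∑ x, ((s x : K) * B v (e (bar x))) • e x

theorem Sys.prj_perp (h : Sys ε B g e bar s α) (v : V) (y : ι) :
    B (prj B e bar s v) (e y) = 0 := by
  unfold prj
  rw [map_sub, LinearMap.sub_apply, map_sum, LinearMap.sum_apply, Finset.sum_eq_single (bar y)]
  · rw [map_smul, LinearMap.smul_apply, h.form, h.hI.inv, if_pos rfl, smul_eq_mul]
    linear_combination (-(B v (e y))) * ss' h (bar y)
  · intro x _ hx
    rw [map_smul, LinearMap.smul_apply, h.form, if_neg, smul_zero]
    intro h2
    exact hx (by rw [h2, h.hI.inv])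
  · intro h2
    exact absurd (Finset.mem_univ _) h2

theorem Sys.prj_eig (h : Sys ε B g e bar s α) (hμ : μ ≠ 0)
    (hg : ∀ u v, B (g u) (g v) = μ * B u v)
    {v : V} {c : K} (hv : g v = c • v) : g (prj B e bar s v) = c • prj B e bar s v := by
  unfold prj
  rw [map_sub, map_sum, hv, smul_sub, Finset.smul_sum]
  congr 1
  refine Finset.sum_congr rfl fun x _ => ?_
  rw [map_smul, h.eig, smul_smul, smul_smul]
  congr 1
  have h1 := hg v (e (bar x))
  rw [hv, h.eig, ← h.aa hg x] at h1
  simp only [map_smul, LinearMap.smul_apply, smul_eq_mul] at h1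
  have h2 : α (bar x) ≠ 0 := by
    intro h0
    apply hμ
    rw [← h.aa hg x, h0, mul_zero]
  apply mul_left_cancel₀ h2
  linear_combination (-(s x : K)) * h1

theorem prj_not {v : V} (hv : v ∉ Submodule.span K (Set.range e)) : prj B e bar s v ≠ 0 := by
  intro h0
  apply hv
  have h1 : v = ∑ x, ((s x : K) * B v (e (bar x))) • e x := sub_eq_zero.1 h0
  rw [h1]
  exact Submodule.sum_mem _ fun x _ => Submodule.smul_mem _ _ (Submodule.subset_span ⟨x, rfl⟩)

theorem pair_prj {u : V} (hu : ∀ x, B u (e x) = 0) (v : V) : B u (prj B e bar s v) = B u v := by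
  unfold prj
  rw [map_sub, map_sum]
  simp only [map_smul, hu, smul_zero, Finset.sum_const_zero, sub_zero]

/-- adding a vector -/
theorem Sys.add_one (h : Sys ε B g e bar s α) (hε : ε = 1)
    (hs : ∀ u v, B u v = (ε : K) * B v u) {u : V} {c : K}
    (hu : g u = c • u) (hp : ∀ x, B u (e x) = 0) (h1 : B u u = 1) :
    Sys ε B g (fun x : Option ι => x.elim u e) (fun x : Option ι => x.map bar)
      (fun x : Option ι => x.elim 1 s) (fun x : Option ι => x.elim c α) := by
  refine ⟨⟨h.hI.eps, fun x => ?_, fun x => ?_, fun x => ?_⟩, fun x => ?_, fun x y => ?_⟩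
  · rcases x with _ | x
    · rfl
    · simp [h.hI.inv]
  · rcases x with _ | x
    · exact Or.inl rfl
    · exact h.hI.sgn x
  · rcases x with _ | x
    · simp [hε]
    · exact h.hI.sbar x
  · rcases x with _ | x
    · exact hu
    · exact h.eig x
  · rcases x with _ | x <;> rcases y with _ | y
    · simpa using h1
    · simpa using hp y
    · simp only [Option.elim_some, Option.elim_none, Option.map_some, reduceCtorEq, if_false]
      rw [hs, hp x, mul_zero]
    · simp only [Option.elim_some, Option.map_some, Option.some.injEq]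
      exact h.form x y

/-- adding a hyperbolic pair -/
theorem Sys.add_two (h : Sys ε B g e bar s α) (hs : ∀ u v, B u v = (ε : K) * B v u) {u v : V}
    {c d : K} (hu : g u = c • u) (hv : g v = d • v) (hpu : ∀ x, B u (e x) = 0)
    (hpv : ∀ x, B v (e x) = 0) (h1 : B u u = 0) (h2 : B v v = 0) (h3 : B u v = 1) :
    Sys ε B g (fun x : ι ⊕ Bool => Sum.elim e (fun b => cond b u v) x)
      (fun x : ι ⊕ Bool => Sum.map bar (fun b => !b) x)
      (fun x : ι ⊕ Bool => Sum.elim s (fun b => cond b 1 ε) x)
      (fun x : ι ⊕ Bool => Sum.elim α (fun b => cond b c d) x) := by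
  refine ⟨⟨h.hI.eps, fun x => ?_, fun x => ?_, fun x => ?_⟩, fun x => ?_, fun x y => ?_⟩
  · rcases x with x | b
    · simp [h.hI.inv]
    · simp
  · rcases x with x | b
    · exact h.hI.sgn x
    · cases b
      · exact h.hI.eps
      · exact Or.inl rfl
  · rcases x with x | b
    · exact h.hI.sbar x
    · cases b
      · rcases h.hI.eps with h | h <;> simp [h]
      · simp
  · rcases x with x | b
    · exact h.eig x
    · cases b
      · exact hv
      · exact hu
  · rcases x with x | b <;> rcases y with y | b'
    · simp only [Sum.elim_inl, Sum.map_inl, Sum.inl.injEq]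
      exact h.form x y
    · cases b'
      · simp [hs _ v, hpv x]
      · simp [hs _ u, hpu x]
    · cases b
      · simp [hpv y]
      · simp [hpu y]
    · cases b <;> cases b'
      · simpa using h2
      · have h4 := hs v u
        rw [h3, mul_one] at h4
        simpa using h4
      · simpa using h3
      · simpa using h1

end

/-- **Eigenbases.** -/
theorem exists_sys_aux [IsAlgClosed K] [CharZero K] [FiniteDimensional K V]
    {B : V →ₗ[K] V →ₗ[K] K} {ε : ℤ}
    {g : Module.End K V} {μ : K} (hμ : μ ≠ 0)
    (hs : ∀ u v, B u v = (ε : K) * B v u) (hnd : ∀ u, (∀ w, B u w = 0) → u = 0)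
    (hg : ∀ u v, B (g u) (g v) = μ * B u v) (hspan : ⨆ c : K, g.eigenspace c = ⊤) :
    ∀ (d : ℕ) (ι : Type) [DecidableEq ι] [Fintype ι] (e : ι → V) (bar : ι → ι) (s : ι → ℤ)
      (α : ι → K),
      Sys ε B g e bar s α → finrank K V ≤ Fintype.card ι + d →
      ∃ (ι : Type) (_ : DecidableEq ι) (_ : Fintype ι) (e : Basis ι K V) (bar : ι → ι)
        (s : ι → ℤ) (α : ι → K), Sys ε B g e bar s α := by
  intro d
  induction d using Nat.strong_induction_on with
  | _ d ih =>
    intro ι _ _ e bar s α h hd
    -- an eigenvector outside a proper submodule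
    have hex : ∀ S : Submodule K V, S ≠ ⊤ → ∃ (c : K) (v : V), g v = c • v ∧ v ∉ S := by
      intro S hS
      by_contra hcon
      push Not at hcon
      apply hS
      rw [← top_le_iff, ← hspan]
      exact iSup_le fun c v hv => hcon c v (Module.End.mem_eigenspace_iff.1 hv)
    by_cases htop : Submodule.span K (Set.range e) = ⊤
    · exact ⟨ι, inferInstance, inferInstance, Basis.mk h.indep htop.ge, bar, s, α, by
        rw [Basis.coe_mk]
        exact h⟩
    have hd0 : d ≠ 0 := by
      rintro rfl
      apply htop
      have h1 := h.indep.fintype_card_le_finrank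
      exact h.indep.span_eq_top_of_card_eq_finrank' (le_antisymm h1 (by simpa using hd))
    obtain ⟨c, v, hv, hvS⟩ := hex _ htop
    have hu := h.prj_eig hμ hg hv
    have hu0 := prj_not (B := B) (bar := bar) (s := s) hvS
    have hup := h.prj_perp v
    set u := prj B e bar s v with hu'
    by_cases hani : ∃ (c : K) (u : V), g u = c • u ∧ (∀ x, B u (e x) = 0) ∧ B u u ≠ 0
    · obtain ⟨c, u, hu, hup, hne⟩ := hani
      have hε : ε = 1 := by
        rcases h.hI.eps with h1 | h1
        · exact h1
        · exfalso
          apply hne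
          have h2 := hs u u
          rw [h1] at h2
          push_cast at h2
          have h3 : (2 : K) * B u u = 0 := by linear_combination h2
          exact (mul_eq_zero.1 h3).resolve_left two_ne_zero
      obtain ⟨z, hz⟩ := IsAlgClosed.exists_pow_nat_eq (B u u) (n := 2) (by norm_num)
      have hz0 : z ≠ 0 := by
        rintro rfl
        apply hne
        rw [← hz]
        norm_num
      have h1 := h.add_one hε hs (u := z⁻¹ • u) (c := c) (by
        rw [map_smul, hu, smul_comm]) (fun x => by
        rw [map_smul, LinearMap.smul_apply, hup, smul_zero]) (by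
        simp only [map_smul, LinearMap.smul_apply, smul_eq_mul]
        rw [← hz]
        field_simp)
      exact ih (d - 1) (by omega) (Option ι) _ _ _ _ h1 (by
        rw [Fintype.card_option]
        omega)
    · push Not at hani
      have huu : B u u = 0 := hani c u hu hup
      -- a partner
      obtain ⟨c', w, hw, hwS⟩ := hex (LinearMap.ker (B u)) (fun h0 => hu0 (hnd u fun w => by
        have h1 : w ∈ LinearMap.ker (B u) := by
          rw [h0]
          exact Submodule.mem_top
        exact h1))
      have hwS' : B u w ≠ 0 := hwS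
      have hw1 := h.prj_eig hμ hg hw
      have hwp := h.prj_perp w
      have hw2 : B u (prj B e bar s w) = B u w := pair_prj hup w
      set w' := prj B e bar s w with hw'
      have hww : B w' w' = 0 := hani c' w' hw1 hwp
      have h1 := h.add_two hs (u := u) (v := (B u w)⁻¹ • w') (c := c) (d := c') hu (by
        rw [map_smul, hw1, smul_comm]) hup (fun x => by
        rw [map_smul, LinearMap.smul_apply, hwp, smul_zero]) huu (by
        simp only [map_smul, LinearMap.smul_apply, hww, smul_zero]) (by
        rw [map_smul, hw2, smul_eq_mul, inv_mul_cancel₀ hwS'])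
      exact ih (d - 1) (by omega) (ι ⊕ Bool) _ _ _ _ h1 (by
        rw [Fintype.card_sum, Fintype.card_bool]
        omega)

theorem exists_sys [IsAlgClosed K] [CharZero K] [FiniteDimensional K V]
    {B : V →ₗ[K] V →ₗ[K] K} {ε : ℤ} (hε : ε = 1 ∨ ε = -1)
    {g : Module.End K V} {μ : K} (hμ : μ ≠ 0)
    (hs : ∀ u v, B u v = (ε : K) * B v u) (hnd : ∀ u, (∀ w, B u w = 0) → u = 0)
    (hg : ∀ u v, B (g u) (g v) = μ * B u v) (hgs : g.IsSemisimple) :
    ∃ (ι : Type) (_ : DecidableEq ι) (_ : Fintype ι) (e : Basis ι K V) (bar : ι → ι)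
        (s : ι → ℤ) (α : ι → K), Sys ε B g e bar s α := by
  have hspan : ⨆ c : K, g.eigenspace c = ⊤ := by
    rw [← Module.End.iSup_maxGenEigenspace_eq_top g]
    refine iSup_congr fun c => ?_
    exact ((Module.End.isFinitelySemisimple_iff_isSemisimple.mpr
      hgs).maxGenEigenspace_eq_eigenspace c).symm
  exact exists_sys_aux hμ hs hnd hg hspan (finrank K V) Empty (fun x => x.elim) (fun x => x)
    (fun x => x.elim) (fun x => x.elim)
    ⟨⟨hε, fun x => x.elim, fun x => x.elim, fun x => x.elim⟩, fun x => x.elim,
      fun x => x.elim⟩ (by simp)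

end

end Pool.Agent.V5helper93.SMQ
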