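import Pool.Agent.V5helper93.SMP.Harm

/-!
# Positivity with signs
-/

set_option autoImplicit false
set_option linter.unusedSectionVars false

open Finset Module

namespace Pool.Agent.V5helper93.SMQ

open Pool.Agent.V5helper93.SMP

noncomputable section

variable {κ σ : Type} [Fintype κ] [DecidableEq κ] [Fintype σ] [DecidableEq σ]

/-- contraction of the slots `a` and `b` -/
def CS {K : Type} [AddCommGroup K] (bar : κ → κ) (s : κ → ℤ) (a b : σ) (t : (σ → κ) → K) :
    (σ → κ) → K :=
  fun J => ∑ x, s x • t (Function.update (Function.update J a x) b (bar x))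

/-- the sum over all pairs of slots of: contract and insert -/
def KS' {K : Type} [AddCommGroup K] (bar : κ → κ) (s : κ → ℤ) (t : (σ → κ) → K) :
    (σ → κ) → K :=
  fun J => ∑ p ∈ (Finset.univ : Finset σ).offDiag,
    if J p.2 = bar (J p.1) then s (J p.1) • CS bar s p.1 p.2 t J else 0

theorem CS_upd_b {K : Type} [AddCommGroup K] (bar : κ → κ) (s : κ → ℤ) {a b : σ} (hab : a ≠ b)
    (t : (σ → κ) → K) (J : σ → κ) (y : κ) :
    CS bar s a b t (Function.update J b y) = CS bar s a b t J := by
  unfold CS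
  refine Finset.sum_congr rfl fun x _ => ?_
  rw [Function.update_comm hab, Function.update_idem, Function.update_comm hab.symm]

theorem CS_upd_a {K : Type} [AddCommGroup K] (bar : κ → κ) (s : κ → ℤ) {a b : σ}
    (t : (σ → κ) → K) (J : σ → κ) (y : κ) :
    CS bar s a b t (Function.update J a y) = CS bar s a b t J := by
  unfold CS
  refine Finset.sum_congr rfl fun x _ => ?_
  rw [Function.update_idem]

/-- the pairing -/
theorem pair_one' (bar : κ → κ) (s : κ → ℤ) {a b : σ} (hab : a ≠ b) (t r : (σ → κ) → ℚ) :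
    (Fintype.card κ : ℚ) ^ 2 *
      ∑ J, (if J b = bar (J a) then s (J a) • CS bar s a b t J else 0) * r J =
      ∑ J, CS bar s a b t J * CS bar s a b r J := by
  rw [pow_two, mul_assoc, ← sum_upd b, ← sum_upd a]
  refine Finset.sum_congr rfl fun J _ => ?_
  have h1 : ∀ x y : κ, (if Function.update (Function.update J a x) b y b =
      bar (Function.update (Function.update J a x) b y a) then
      s (Function.update (Function.update J a x) b y a) •
        CS bar s a b t (Function.update (Function.update J a x) b y) else 0) *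
      r (Function.update (Function.update J a x) b y) = if y = bar x then
        CS bar s a b t J * (s x • r (Function.update (Function.update J a x) b y)) else 0 := by
    intro x y
    rw [Function.update_self, Function.update_of_ne hab, Function.update_self,
      CS_upd_b bar s hab, CS_upd_a, ite_mul, zero_mul, smul_mul_assoc, mul_smul_comm]
  simp only [h1, Finset.sum_ite_eq', Finset.mem_univ, if_true]
  rw [← Finset.mul_sum]
  rfl

theorem pair_all' (bar : κ → κ) (s : κ → ℤ) (t r : (σ → κ) → ℚ) :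
    (Fintype.card κ : ℚ) ^ 2 * ∑ J, KS' bar s t J * r J =
      ∑ p ∈ (Finset.univ : Finset σ).offDiag, ∑ J, CS bar s p.1 p.2 t J * CS bar s p.1 p.2 r J := by
  have h1 : ∑ J, KS' bar s t J * r J = ∑ p ∈ (Finset.univ : Finset σ).offDiag,
      ∑ J, (if J p.2 = bar (J p.1) then s (J p.1) • CS bar s p.1 p.2 t J else 0) * r J := by
    rw [Finset.sum_comm]
    refine Finset.sum_congr rfl fun J _ => ?_
    rw [KS', Finset.sum_mul]
  rw [h1, Finset.mul_sum]
  refine Finset.sum_congr rfl fun p hp => ?_
  exact pair_one' bar s (Finset.mem_offDiag.1 hp).2.2 t r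

theorem posQ' (bar : κ → κ) (s : κ → ℤ) {t : (σ → κ) → ℚ} (h : KS' bar s (KS' bar s t) = 0) :
    KS' bar s t = 0 ∧ ∀ a b, a ≠ b → CS bar s a b t = 0 := by
  rcases isEmpty_or_nonempty κ with hκ | hκ
  · rcases isEmpty_or_nonempty σ with hσ | hσ
    · refine ⟨?_, fun a => hσ.elim a⟩
      funext J
      have h1 : (Finset.univ : Finset σ).offDiag = ∅ := by
        refine Finset.eq_empty_of_forall_notMem fun p => hσ.elim p.1
      rw [KS', h1, Finset.sum_empty]
      rfl
    · obtain ⟨j⟩ := hσ
      have h0 : ∀ f : (σ → κ) → ℚ, f = 0 := fun f => funext fun J => hκ.elim (J j)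
      exact ⟨h0 _, fun a b _ => h0 _⟩
  have hcard : (Fintype.card κ : ℚ) ^ 2 ≠ 0 :=
    pow_ne_zero 2 (Nat.cast_ne_zero.2 Fintype.card_ne_zero)
  have h1 := pair_all' bar s (KS' bar s t) t
  rw [h] at h1
  simp only [Pi.zero_apply, zero_mul, Finset.sum_const_zero, mul_zero] at h1
  have h2 := pair_all' bar s t (KS' bar s t)
  have h3 : ∑ p ∈ (Finset.univ : Finset σ).offDiag, ∑ J,
      CS bar s p.1 p.2 t J * CS bar s p.1 p.2 (KS' bar s t) J = 0 := by
    rw [h1]
    refine Finset.sum_congr rfl fun p _ => Finset.sum_congr rfl fun J _ => mul_comm _ _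
  rw [h3] at h2
  have h4 : KS' bar s t = 0 := sq_zero _ ((mul_eq_zero.1 h2).resolve_left hcard)
  refine ⟨h4, fun a b hab => ?_⟩
  have h5 := pair_all' bar s t t
  rw [h4] at h5
  simp only [Pi.zero_apply, zero_mul, Finset.sum_const_zero, mul_zero] at h5
  have h6 := (Finset.sum_eq_zero_iff_of_nonneg fun p _ =>
    Finset.sum_nonneg fun J _ => mul_self_nonneg (CS bar s p.1 p.2 t J)).1 h5.symm (a, b)
    (Finset.mem_offDiag.2 ⟨Finset.mem_univ _, Finset.mem_univ _, hab⟩)
  exact sq_zero _ h6

theorem CS_map {K L : Type} [AddCommGroup K] [AddCommGroup L] (l : K →+ L) (bar : κ → κ)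
    (s : κ → ℤ) (a b : σ) (t : (σ → κ) → K) (J : σ → κ) :
    CS bar s a b (fun J => l (t J)) J = l (CS bar s a b t J) := by
  unfold CS
  rw [map_sum]
  refine Finset.sum_congr rfl fun x _ => ?_
  rw [map_zsmul]

theorem KS'_map {K L : Type} [AddCommGroup K] [AddCommGroup L] (l : K →+ L) (bar : κ → κ)
    (s : κ → ℤ) (t : (σ → κ) → K) (J : σ → κ) :
    KS' bar s (fun J => l (t J)) J = l (KS' bar s t J) := by
  unfold KS'
  rw [map_sum]
  refine Finset.sum_congr rfl fun p _ => ?_
  split_ifs
  · rw [map_zsmul, CS_map l bar s _ _ t J]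
  · rw [map_zero]

/-- **Positivity.** -/
theorem posK' {K : Type} [Field K] [CharZero K] (bar : κ → κ) (s : κ → ℤ) {t : (σ → κ) → K}
    (h : KS' bar s (KS' bar s t) = 0) :
    KS' bar s t = 0 ∧ ∀ a b, a ≠ b → CS bar s a b t = 0 := by
  have h1 : ∀ l : Dual ℚ K, KS' bar s (fun J => l (t J)) = 0 ∧
      ∀ a b, a ≠ b → CS bar s a b (fun J => l (t J)) = 0 := by
    intro l
    refine posQ' bar s ?_
    have h2 : KS' bar s (fun J => l (t J)) = fun J => l (KS' bar s t J) :=
      funext fun J => KS'_map l.toAddMonoidHom bar s t J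
    rw [h2]
    funext J
    have h3 : KS' bar s (fun J => l (KS' bar s t J)) J = l (KS' bar s (KS' bar s t) J) :=
      KS'_map l.toAddMonoidHom bar s (KS' bar s t) J
    rw [h3, h, Pi.zero_apply, map_zero]
    rfl
  refine ⟨funext fun J => (Module.forall_dual_apply_eq_zero_iff ℚ _).1 fun l => ?_,
    fun a b hab => funext fun J => (Module.forall_dual_apply_eq_zero_iff ℚ _).1 fun l => ?_⟩
  · have h2 : KS' bar s (fun J => l (t J)) J = l (KS' bar s t J) :=
      KS'_map l.toAddMonoidHom bar s t J
    rw [← h2, (h1 l).1]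
    rfl
  · have h2 : CS bar s a b (fun J => l (t J)) J = l (CS bar s a b t J) :=
      CS_map l.toAddMonoidHom bar s a b t J
    rw [← h2, (h1 l).2 a b hab]
    rfl

end

end Pool.Agent.V5helper93.SMQ
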