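import Pool.Agent.V5helper93.SMP.BC
import Pool.Agent.V5helper93.SMQ.EigB
import Pool.Agent.V5helper93.SMQ.Harm

/-!
# Contractions on adapted bases, with signs
-/

set_option autoImplicit false
set_option linter.unusedSectionVars false

namespace Pool.Agent.V5helper93.SMQ

open Module TensorProduct Polynomial Pool.Agent.H204R3.SP Pool.Agent.V5helper93.GTC

open Pool.Agent.V5helper93.SMP (DP casimir ctr ctr_res ins ins_apply res res_surj ext_res KS
  KS_apply ctr_Fm ins_Fm KS_Fm update_e update_one ctr_indep)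

noncomputable section

section dp

variable {k T : Type} [Field k] [AddCommGroup T] [Module k T]

theorem exists_DP [FiniteDimensional k T] {B : T →ₗ[k] T →ₗ[k] k} {ε : ℤ}
    (hs : ∀ u v, B u v = (ε : k) * B v u) (hnd : ∀ u, (∀ w, B u w = 0) → u = 0) :
    ∃ (ι : Type) (_ : Fintype ι) (_ : DecidableEq ι) (d : Basis ι k T) (d' : ι → T),
      DP B d d' := by
  classical
  let b := Module.finBasis k T
  have hB : LinearMap.BilinForm.Nondegenerate (B : LinearMap.BilinForm k T) := by
    refine ⟨fun m h => hnd m h, fun m h => hnd m fun n => ?_⟩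
    rw [hs, h n, mul_zero]
  let D := LinearMap.BilinForm.dualBasis (B : LinearMap.BilinForm k T) hB b
  have h1 : ∀ i j, B (D i) (b j) = if j = i then 1 else 0 := fun i j =>
    LinearMap.BilinForm.apply_dualBasis_left (B := (B : LinearMap.BilinForm k T)) hB b i j
  refine ⟨Fin (finrank k T), inferInstance, inferInstance, D, b, ⟨fun v => ?_, fun v => ?_⟩⟩
  · conv_rhs => rw [← D.sum_repr v]
    refine Finset.sum_congr rfl fun i _ => ?_
    congr 1
    conv_lhs => rw [← D.sum_repr v]
    simp only [map_sum, map_smul, LinearMap.sum_apply, LinearMap.smul_apply, h1, smul_eq_mul,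
      mul_ite, mul_one, mul_zero, Finset.sum_ite_eq, Finset.mem_univ, if_true]
  · conv_rhs => rw [← b.sum_repr v]
    refine Finset.sum_congr rfl fun i _ => ?_
    congr 1
    conv_lhs => rw [← b.sum_repr v]
    simp only [map_sum, map_smul, h1, smul_eq_mul,
      mul_ite, mul_one, mul_zero, Finset.sum_ite_eq', Finset.mem_univ, if_true]

theorem Sys.dp {ε : ℤ} {B : T →ₗ[k] T →ₗ[k] k} {g : Module.End k T} {ι : Type} [DecidableEq ι]
    [Fintype ι] {e : Basis ι k T} {bar : ι → ι} {s : ι → ℤ} {α : ι → k}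
    (h : Sys ε B g e bar s α) : DP B e (fun x => (s x : k) • e (bar x)) := by
  have h1 : ∀ v x, B v ((s x : k) • e (bar x)) = e.repr v x := by
    intro v x
    conv_lhs => rw [← e.sum_repr v]
    simp only [map_sum, map_smul, LinearMap.sum_apply, LinearMap.smul_apply, h.form, smul_eq_mul]
    rw [Finset.sum_eq_single x]
    · rw [if_pos rfl]
      linear_combination (e.repr v x) * ss' h x
    · intro y _ hy
      rw [if_neg, mul_zero]
      intro h2
      exact hy (by rw [← h.hI.inv y, ← h2, h.hI.inv])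
    · intro h2
      exact absurd (Finset.mem_univ _) h2
  have h2 : ∀ v x, B (e x) v = (s x : k) * e.repr v (bar x) := by
    intro v x
    conv_lhs => rw [← e.sum_repr v]
    simp only [map_sum, map_smul, h.form, smul_eq_mul, mul_ite,
      mul_zero, Finset.sum_ite_eq', Finset.mem_univ, if_true]
    rw [mul_comm]
  refine ⟨fun v => ?_, fun v => ?_⟩
  · simp only [h1]
    exact e.sum_repr v
  · have h3 : ∀ x, B (e x) v • (s x : k) • e (bar x) = e.repr v (bar x) • e (bar x) := by
      intro x
      rw [h2, smul_smul]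
      congr 1
      linear_combination (e.repr v (bar x)) * ss' h x
    rw [Finset.sum_congr rfl fun x _ => h3 x]
    conv_rhs => rw [← e.sum_repr v]
    exact Fintype.sum_equiv (Function.Involutive.toPerm bar h.hI.inv) _ _ fun x => rfl

end dp

variable {k K T W : Type} [Field k] [Field K] [CharZero k] [CharZero K] [Algebra k K]
  [AddCommGroup T] [Module k T] [AddCommGroup W] [Module k W]

theorem bcb_symm {B : T →ₗ[k] T →ₗ[k] k} {ε : ℤ} (hs : ∀ u v, B u v = (ε : k) * B v u)
    (u v : K ⊗[k] T) : bcb K B u v = (ε : K) * bcb K B v u := by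
  induction u with
  | zero => simp only [map_zero, LinearMap.zero_apply, mul_zero]
  | add u u' hu hu' => simp only [map_add, LinearMap.add_apply, hu, hu', mul_add]
  | tmul a u =>
    induction v with
    | zero => simp only [map_zero, LinearMap.zero_apply, mul_zero]
    | add v v' hv hv' => simp only [map_add, LinearMap.add_apply, hv, hv', mul_add]
    | tmul c v =>
      rw [bcb_tmul, bcb_tmul, hs u v, mul_smul, mul_comm a c, Int.cast_smul_eq_zsmul,
        zsmul_eq_mul]

/-! ### on an adapted basis -/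

section basis

variable {σ : Type} [Fintype σ] [DecidableEq σ]
  {X : Type} [AddCommGroup X] [Module K X] {ε : ℤ} {B : X →ₗ[K] X →ₗ[K] K} {g : Module.End K X}
  {ι : Type} [DecidableEq ι] [Fintype ι] {e : Basis ι K X} {bar : ι → ι} {s : ι → ℤ} {α : ι → K}

theorem ctr_e (F : MultilinearMap K (fun _ : σ => X) K) {x y : σ} (hxy : x ≠ y) (J : σ → ι) :
    ctr hxy e (fun z => (s z : K) • e (bar z)) F (res x y fun l => e (J l)) =
      CS bar s x y (fun J => F fun l => e (J l)) J := by
  rw [ctr_res, CS]
  refine Finset.sum_congr rfl fun z _ => ?_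
  rw [update_e, update_e, MultilinearMap.map_update_smul, Int.cast_smul_eq_zsmul]

theorem KS_e (h : Sys ε B g e bar s α) (F : MultilinearMap K (fun _ : σ => X) K) (J : σ → ι) :
    KS B e (fun z => (s z : K) • e (bar z)) F (fun l => e (J l)) =
      KS' bar s (fun J => F fun l => e (J l)) J := by
  rw [KS_apply, sum_apply, KS']
  have h1 : (Finset.univ : Finset σ).offDiag = Finset.univ.filter fun p : σ × σ => p.1 ≠ p.2 := by
    ext p
    simp
  rw [h1, ← Finset.sum_subtype_eq_sum_filter]
  refine Finset.sum_congr ?_ fun p _ => ?_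
  · ext p
    simp
  · rw [ins_apply, ctr_e, h.form]
    split_ifs
    · rw [Int.cast_smul_eq_zsmul]
    · rw [zero_smul]

theorem ext_e {F G : MultilinearMap K (fun _ : σ => X) K}
    (h : (fun J : σ → ι => F fun l => e (J l)) = fun J => G fun l => e (J l)) : F = G :=
  Basis.ext_multilinear (fun _ => e) fun J => congrFun h J

/-- Positivity on an adapted basis. -/
theorem harm_e (h : Sys ε B g e bar s α) (F : MultilinearMap K (fun _ : σ => X) K)
    (hF : KS B e (fun z => (s z : K) • e (bar z))
      (KS B e (fun z => (s z : K) • e (bar z)) F) = 0) :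
    KS B e (fun z => (s z : K) • e (bar z)) F = 0 ∧
      ∀ (x y : σ) (hxy : x ≠ y), ctr hxy e (fun z => (s z : K) • e (bar z)) F = 0 := by
  have h1 : (fun J : σ → ι => KS B e (fun z => (s z : K) • e (bar z)) F fun l => e (J l)) =
      KS' bar s fun J => F fun l => e (J l) := funext fun J => KS_e h F J
  have h2 : KS' bar s (KS' bar s fun J => F fun l => e (J l)) = 0 := by
    rw [← h1]
    funext J
    rw [← KS_e h, hF]
    rfl
  obtain ⟨h3, h4⟩ := posK' bar s h2
  refine ⟨ext_e (e := e) ?_, fun x y hxy => Basis.ext_multilinear (fun _ => e) fun J' => ?_⟩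
  · rw [h1, h3]
    rfl
  · rcases isEmpty_or_nonempty ι with hι | ⟨⟨i0⟩⟩
    · -- no basis vectors
      have h5 : ∀ x : X, x = 0 := by
        intro x
        rw [← e.sum_repr x]
        exact Finset.sum_of_isEmpty _
      have h6 : F = 0 := by
        ext v
        rw [MultilinearMap.map_coord_zero F x (h5 (v x))]
        rfl
      rw [h6, map_zero]
    let J : σ → ι := fun l => if h : l ≠ x ∧ l ≠ y then J' ⟨l, h⟩ else i0
    have h5 : (fun l => e (J' l)) = res x y fun l => e (J l) := by
      funext l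
      change e (J' l) = e (if h : l.1 ≠ x ∧ l.1 ≠ y then J' ⟨l.1, h⟩ else i0)
      rw [dif_pos l.2]
    rw [h5, ctr_e, h4 x y hxy]
    rfl

end basis

/-- **Positivity.** -/
theorem harm [FiniteDimensional k T] {σ : Type} [Fintype σ] [DecidableEq σ]
    {B : T →ₗ[k] T →ₗ[k] k} {ε : ℤ} (hε : ε = 1 ∨ ε = -1)
    (hs : ∀ u v, B u v = (ε : k) * B v u) {ι : Type} [Fintype ι] {d d' : ι → T} (hd : DP B d d')
    (f : MultilinearMap k (fun _ : σ => T) W) (hf : KS B d d' (KS B d d' f) = 0) :
    KS B d d' f = 0 ∧ ∀ (x y : σ) (hxy : x ≠ y), ctr hxy d d' f = 0 := by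
  classical
  let K := AlgebraicClosure k
  have hDP := hd.bc (K := K)
  obtain ⟨ι', _, _, e, bar, s, α, h⟩ := exists_sys (K := K) (V := K ⊗[k] T) (B := bcb K B) hε
    (g := 1) (μ := 1) one_ne_zero (bcb_symm hs) hDP.nondeg (fun u v => (one_mul _).symm)
    (by
      refine Module.End.isSemisimple_of_squarefree_aeval_eq_zero (p := X - C 1)
        (irreducible_X_sub_C 1).squarefree ?_
      simp)
  let b := Module.finBasis k T
  have h1 : ∀ μ : Dual K (K ⊗[k] W),
      KS (bcb K B) e (fun z => (s z : K) • e (bar z)) (Fm b μ f) = 0 ∧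
      ∀ (x y : σ) (hxy : x ≠ y), ctr hxy e (fun z => (s z : K) • e (bar z)) (Fm b μ f) = 0 := by
    intro μ
    refine harm_e h _ ?_
    rw [KS_Fm b hd h.dp, KS_Fm b hd h.dp, hf, map_zero]
  have h2 : ∀ {κ : Type} [Fintype κ] [DecidableEq κ] (g : MultilinearMap k (fun _ : κ => T) W),
      (∀ μ : Dual K (K ⊗[k] W), Fm b μ g = 0) → g = 0 := by
    intro κ _ _ g hg
    ext v
    have h3 : (1 : K) ⊗ₜ[k] g v = 0 := by
      refine (Module.forall_dual_apply_eq_zero_iff K _).1 fun μ => ?_
      rw [← Fm_one b, hg]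
      rfl
    have h4 : Function.Injective (TensorProduct.mk k K W 1) :=
      Module.Flat.tensorProduct_mk_injective k W K
    exact h4 (by
      change (1 : K) ⊗ₜ[k] g v = (1 : K) ⊗ₜ[k] (0 : W)
      rw [h3, tmul_zero])
  refine ⟨h2 _ fun μ => ?_, fun x y hxy => h2 _ fun μ => ?_⟩
  · rw [← KS_Fm b hd h.dp]
    exact (h1 μ).1
  · rw [← ctr_Fm b hd h.dp]
    exact (h1 μ).2 x y hxy

end

end Pool.Agent.V5helper93.SMQ
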