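import Pool.Agent.V5helper93.SMQ.Main

/-!
# The other inclusion
-/

set_option autoImplicit false
set_option linter.unusedSectionVars false

namespace Pool.Agent.V5helper93.SMQ

open Module Polynomial Pool.Agent.V5helper93.GTC Pool.Agent.Y128.GT

open Pool.Agent.V5helper93.SMP (mulMap mulMap_apply mulRep res BigImage
  UnitFrobenius DP mem_mtens mtens prods Tgt shift ins ins_apply ins_act rho_cancel)

noncomputable section

section ints

variable {k V V' : Type} [Field k] [CharZero k] [AddCommGroup V] [Module k V] [AddCommGroup V']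
  [Module k V']

/-- the vectors killed by a monic polynomial of `T` with integral coefficients -/
def IS (T : Module.End k V) : Submodule k V where
  carrier := {v | ∃ g : ℤ[X], g.Monic ∧ aeval T (g.map (Int.castRingHom k)) v = 0}
  add_mem' := by
    rintro u v ⟨g, hg, hu⟩ ⟨g', hg', hv⟩
    refine ⟨g * g', hg.mul hg', ?_⟩
    have h1 : aeval T ((g * g').map (Int.castRingHom k)) u = 0 := by
      rw [mul_comm, Polynomial.map_mul, map_mul, Module.End.mul_apply, hu, map_zero]
    have h2 : aeval T ((g * g').map (Int.castRingHom k)) v = 0 := by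
      rw [Polynomial.map_mul, map_mul, Module.End.mul_apply, hv, map_zero]
    rw [map_add, h1, h2, add_zero]
  zero_mem' := ⟨1, monic_one, map_zero _⟩
  smul_mem' := by
    rintro r v ⟨g, hg, hv⟩
    exact ⟨g, hg, by rw [map_smul, hv, smul_zero]⟩

theorem mem_IS {T : Module.End k V} {v : V} : v ∈ IS T ↔
    ∃ g : ℤ[X], g.Monic ∧ aeval T (g.map (Int.castRingHom k)) v = 0 := Iff.rfl

theorem IS_inter {T : Module.End k V} {T' : Module.End k V'} {L : V →ₗ[k] V'}
    (h : ∀ v, L (T v) = T' (L v)) {v : V} (hv : v ∈ IS T) : L v ∈ IS T' := by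
  obtain ⟨g, hg, h1⟩ := hv
  refine ⟨g, hg, ?_⟩
  rw [← aeval_inter T T' L h, h1, map_zero]

/-- a common polynomial -/
theorem IS_unif {T : Module.End k V} {U : Submodule k V} [FiniteDimensional k U]
    (h : U ≤ IS T) : ∃ g : ℤ[X], g.Monic ∧
      ∀ u ∈ U, aeval T (g.map (Int.castRingHom k)) u = 0 := by
  classical
  let b := Module.finBasis k U
  have h1 : ∀ i, ∃ g : ℤ[X], g.Monic ∧
      aeval T (g.map (Int.castRingHom k)) (b i : V) = 0 := fun i => h (b i).2
  choose g hg hb using h1
  refine ⟨∏ i, g i, monic_prod_of_monic _ _ fun i _ => hg i, fun u hu => ?_⟩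
  have h2 : U ≤ LinearMap.ker (aeval T ((∏ i, g i).map (Int.castRingHom k))) := by
    have h3 : ∀ i, (b i : V) ∈ LinearMap.ker (aeval T ((∏ i, g i).map (Int.castRingHom k))) := by
      intro i
      rw [LinearMap.mem_ker, ← Finset.prod_erase_mul _ _ (Finset.mem_univ i), Polynomial.map_mul,
        map_mul, Module.End.mul_apply, hb i, map_zero]
    intro u hu
    have h4 := congrArg Subtype.val (b.sum_repr ⟨u, hu⟩)
    rw [← show ((⟨u, hu⟩ : U) : V) = u from rfl, ← h4, AddSubmonoidClass.coe_finsetSum]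
    exact Submodule.sum_mem _ fun i _ => Submodule.smul_mem _ _ (h3 i)
  exact h2 hu

/-- products -/
theorem IS_mul {R₁ R₂ : Module.End k V} (hc : ∀ v, R₁ (R₂ v) = R₂ (R₁ v)) {U : Submodule k V}
    [FiniteDimensional k U] (hU₁ : ∀ u ∈ U, R₁ u ∈ U) (hU₂ : ∀ u ∈ U, R₂ u ∈ U)
    (h₁ : U ≤ IS R₁) (h₂ : U ≤ IS R₂) : U ≤ IS (R₁ * R₂) := by
  have hint : ∀ {R : Module.End k V} (hU : ∀ u ∈ U, R u ∈ U), U ≤ IS R →
      IsIntegral ℤ (R.restrict hU : Module.End k U) := by
    intro R hU h
    obtain ⟨g, hg, hgU⟩ := IS_unif h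
    refine ⟨g, hg, ?_⟩
    have h1 : aeval (R.restrict hU : Module.End k U) (g.map (algebraMap ℤ k)) = 0 := by
      refine LinearMap.ext fun u => Subtype.ext ?_
      have h2 := aeval_inter (R.restrict hU) R U.subtype (fun _ => rfl)
        (g.map (Int.castRingHom k)) u
      exact h2.trans (hgU u u.2)
    rw [aeval_map_algebraMap] at h1
    exact h1
  set r₁ : Module.End k U := R₁.restrict hU₁ with hr₁
  set r₂ : Module.End k U := R₂.restrict hU₂ with hr₂
  have hi₁ : IsIntegral ℤ r₁ := hint hU₁ h₁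
  have hi₂ : IsIntegral ℤ r₂ := hint hU₂ h₂
  have hcomm : r₁ * r₂ = r₂ * r₁ := LinearMap.ext fun u => Subtype.ext (hc u)
  have hcomm' : ∀ a ∈ ({r₁, r₂} : Set (Module.End k U)), ∀ b ∈ ({r₁, r₂} : Set (Module.End k U)),
      a * b = b * a := by
    rintro a (rfl | rfl) b (rfl | rfl)
    · rfl
    · exact hcomm
    · exact hcomm.symm
    · rfl
  let _ := Algebra.adjoinCommRingOfComm ℤ hcomm'
  let a : Algebra.adjoin ℤ ({r₁, r₂} : Set (Module.End k U)) :=
    ⟨r₁, Algebra.subset_adjoin (Set.mem_insert _ _)⟩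
  let b : Algebra.adjoin ℤ ({r₁, r₂} : Set (Module.End k U)) :=
    ⟨r₂, Algebra.subset_adjoin (Set.mem_insert_of_mem _ rfl)⟩
  have ha : IsIntegral ℤ a :=
    (isIntegral_algHom_iff (Algebra.adjoin ℤ ({r₁, r₂} : Set (Module.End k U))).val
      Subtype.val_injective).1 hi₁
  have hb : IsIntegral ℤ b :=
    (isIntegral_algHom_iff (Algebra.adjoin ℤ ({r₁, r₂} : Set (Module.End k U))).val
      Subtype.val_injective).1 hi₂
  have hab := (ha.mul hb).map (Algebra.adjoin ℤ ({r₁, r₂} : Set (Module.End k U))).val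
  obtain ⟨g, hg, hg0⟩ := hab
  intro u hu
  refine ⟨g, hg, ?_⟩
  have h1 : aeval (r₁ * r₂) (g.map (algebraMap ℤ k)) = 0 := by
    rw [aeval_map_algebraMap]
    exact hg0
  have h2 := aeval_inter (r₁ * r₂) (R₁ * R₂) U.subtype (fun _ => rfl)
    (g.map (Int.castRingHom k)) ⟨u, hu⟩
  have h3 : aeval (r₁ * r₂) (g.map (Int.castRingHom k)) = 0 := h1
  rw [h3, LinearMap.zero_apply, map_zero] at h2
  exact h2.symm

/-- integral roots -/
theorem int_of_roots {Q : k[X]} (hQ : Q.Monic)
    (h : ∀ β : AlgebraicClosure k, aeval β Q = 0 → IsIntegral ℤ β) :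
    ∃ g : ℤ[X], g.Monic ∧ Q ∣ g.map (Int.castRingHom k) := by
  classical
  let Ω := AlgebraicClosure k
  let ι : k →+* Ω := algebraMap k Ω
  let rts := (Q.map ι).roots
  refine ⟨(rts.map (minpoly ℤ)).prod, monic_multiset_prod_of_monic _ _ fun r hr => ?_, ?_⟩
  · refine minpoly.monic (h r ?_)
    have h1 := (mem_roots'.1 hr).2
    rw [IsRoot.def, eval_map] at h1
    exact h1
  · rw [← Polynomial.map_dvd_map' ι]
    have h1 : Q.map ι = (rts.map fun r => X - C r).prod :=
      (IsAlgClosed.splits (Q.map ι)).eq_prod_roots_of_monic (hQ.map ι)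
    rw [h1, Polynomial.map_map, ← coe_mapRingHom, map_multiset_prod, Multiset.map_map]
    refine Multiset.prod_dvd_prod_of_dvd _ _ fun r hr => ?_
    rw [dvd_iff_isRoot, IsRoot.def]
    have h2 : (aeval r) (minpoly ℤ r) = 0 := minpoly.aeval ℤ r
    rw [← h2, aeval_def, Function.comp_apply, coe_mapRingHom, eval_map]
    exact congrArg (fun φ : ℤ →+* Ω => eval₂ φ r (minpoly ℤ r)) (RingHom.ext_int _ _)

theorem IS_of_entire {p a ν : ℕ} (hp : p ≠ 0) {R : Module.End k V} {U : Submodule k V}
    (h : EntireOn p a ν R U) : U ≤ IS ((((p : k) ^ a) ^ ν)⁻¹ • R) := by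
  have hc : ((p : k) ^ a) ^ ν ≠ 0 := pow_ne_zero _ (pow_ne_zero _ (Nat.cast_ne_zero.2 hp))
  have h1 := shift hp le_rfl (R' := (((p : k) ^ a) ^ ν)⁻¹ • R) (L := LinearMap.id)
    (fun v => by
      rw [LinearMap.id_apply, LinearMap.id_apply, LinearMap.smul_apply, smul_smul,
        mul_inv_cancel₀ hc, one_smul]) h
  rw [Nat.sub_self] at h1
  obtain ⟨Q, hQm, hQU, hQβ⟩ := h1
  obtain ⟨g, hg, D, hD⟩ := int_of_roots hQm fun β hβ => by
    have h2 := hQβ β hβ
    rwa [pow_zero, div_one] at h2
  intro u hu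
  refine ⟨g, hg, ?_⟩
  rw [hD, mul_comm, map_mul, Module.End.mul_apply, hQU u ⟨u, hu, rfl⟩, map_zero]

theorem entire_of_IS {p a ν : ℕ} (hp : p ≠ 0) {R : Module.End k V} {U : Submodule k V}
    [FiniteDimensional k U] (h : U ≤ IS ((((p : k) ^ a) ^ ν)⁻¹ • R)) : EntireOn p a ν R U := by
  set c : k := ((p : k) ^ a) ^ ν with hc'
  have hc : c ≠ 0 := pow_ne_zero _ (pow_ne_zero _ (Nat.cast_ne_zero.2 hp))
  obtain ⟨g, hg, hgU⟩ := IS_unif h
  set G : k[X] := g.map (Int.castRingHom k) with hG
  have hGm : G.Monic := hg.map _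
  have hci : c⁻¹ ≠ 0 := inv_ne_zero hc
  have hdeg : (C c⁻¹ * X : k[X]).natDegree = 1 := by
    rw [natDegree_C_mul hci, natDegree_X]
  refine ⟨C ((c⁻¹ ^ G.natDegree)⁻¹) * G.comp (C c⁻¹ * X), ?_, ?_, ?_⟩
  · rw [Monic.def, leadingCoeff_mul, leadingCoeff_C,
      leadingCoeff_comp (by rw [hdeg]; exact one_ne_zero),
      hGm.leadingCoeff, one_mul, leadingCoeff_mul, leadingCoeff_C, leadingCoeff_X, mul_one,
      inv_mul_cancel₀ (pow_ne_zero _ hci)]
  · intro u hu
    have h1 : aeval R (G.comp (C c⁻¹ * X)) = aeval (c⁻¹ • R) G := by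
      rw [aeval_comp]
      congr 1
      rw [map_mul, aeval_C, aeval_X, Algebra.smul_def]
    rw [map_mul, Module.End.mul_apply, h1, hgU u hu, map_zero]
  · intro β hβ
    have h1 : aeval (algebraMap k (AlgebraicClosure k) c⁻¹ * β) G = 0 := by
      rw [map_mul, aeval_C, aeval_comp, map_mul, aeval_C, aeval_X] at hβ
      refine (mul_eq_zero.1 hβ).resolve_left ?_
      intro h0
      rw [map_eq_zero] at h0
      exact inv_ne_zero (pow_ne_zero _ hci) h0
    have h3 : algebraMap k (AlgebraicClosure k) c⁻¹ * β =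
        β / ((p : AlgebraicClosure k) ^ a) ^ ν := by
      rw [map_inv₀, hc', map_pow, map_pow, map_natCast, div_eq_inv_mul]
    rw [h3] at h1
    refine ⟨g, hg, ?_⟩
    rw [hG, aeval_def, eval₂_map] at h1
    rw [← h1]
    exact congrArg (fun φ : ℤ →+* AlgebraicClosure k => eval₂ φ _ g) (RingHom.ext_int _ _)

end ints

variable {k T W Γ : Type} [Field k] [CharZero k] [AddCommGroup T] [Module k T]
  [FiniteDimensional k T] [AddCommGroup W] [Module k W] [FiniteDimensional k W] [Group Γ]
  {ε : ℤ} {B : T →ₗ[k] T →ₗ[k] k} {ρ : Representation k Γ T} {χ : Γ →* k} {w : ℕ}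
  {τ : Representation k Γ W}

/-! ### composition with operators in some variables -/

/-- composition with `X` in the variables of `S` -/
def sl {σ : Type} [DecidableEq σ] (X : Module.End k T) (S : Finset σ) :
    Module.End k (MultilinearMap k (fun _ : σ => T) W) where
  toFun f := f.compLinearMap fun l => if l ∈ S then X else LinearMap.id
  map_add' _ _ := rfl
  map_smul' _ _ := rfl

theorem sl_apply {σ : Type} [DecidableEq σ] (X : Module.End k T) (S : Finset σ)
    (f : MultilinearMap k (fun _ : σ => T) W) (v : σ → T) :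
    sl X S f v = f fun l => if l ∈ S then X (v l) else v l := by
  change f (fun l => (if l ∈ S then X else LinearMap.id) (v l)) = _
  congr 1
  funext l
  split_ifs <;> rfl

theorem sl_single {σ : Type} [DecidableEq σ] (X : Module.End k T) (j : σ)
    (f : MultilinearMap k (fun _ : σ => T) W) (v : σ → T) :
    sl X {j} f v = f (Function.update v j (X (v j))) := by
  rw [sl_apply]
  congr 1
  funext l
  by_cases h : l = j
  · subst h
    rw [if_pos (Finset.mem_singleton_self _), Function.update_self]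
  · rw [if_neg (by rwa [Finset.mem_singleton]), Function.update_of_ne h]

theorem sl_int {σ : Type} [Fintype σ] [DecidableEq σ] {X : Module.End k T} {g : ℤ[X]}
    (hg : g.Monic) (h : aeval X (g.map (Int.castRingHom k)) = 0) (S : Finset σ)
    (f : MultilinearMap k (fun _ : σ => T) W) : f ∈ IS (sl X S) := by
  induction S using Finset.induction_on generalizing f with
  | empty =>
    refine ⟨Polynomial.X - 1, monic_X_sub_C 1, ?_⟩
    have h1 : (sl X ∅ : Module.End k (MultilinearMap k (fun _ : σ => T) W)) = 1 := by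
      refine LinearMap.ext fun f => MultilinearMap.ext fun v => ?_
      rw [sl_apply]
      simp
    rw [h1]
    simp
  | insert j S hj ih =>
    have h1 : (sl X (insert j S) : Module.End k (MultilinearMap k (fun _ : σ => T) W)) =
        sl X {j} * sl X S := by
      refine LinearMap.ext fun f => MultilinearMap.ext fun v => ?_
      rw [Module.End.mul_apply, sl_single, sl_apply, sl_apply]
      congr 1
      funext l
      by_cases h : l = j
      · subst h
        rw [Function.update_self, if_pos (Finset.mem_insert_self _ _), if_neg hj]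
      · rw [Function.update_of_ne h]
        simp only [Finset.mem_insert, h, false_or]
    have h2 : ∀ f : MultilinearMap k (fun _ : σ => T) W,
        sl X {j} (sl X S f) = sl X S (sl X {j} f) := by
      intro f
      ext v
      rw [sl_single, sl_apply, sl_apply, sl_single]
      congr 1
      funext l
      by_cases h : l = j
      · subst h
        rw [Function.update_self, Function.update_self, if_neg hj, if_neg hj]
      · rw [Function.update_of_ne h, Function.update_of_ne h]
    have h3 : (⊤ : Submodule k (MultilinearMap k (fun _ : σ => T) W)) ≤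
        IS (sl X {j} * sl X S) := by
      refine IS_mul h2 (fun _ _ => Submodule.mem_top) (fun _ _ => Submodule.mem_top)
        (fun f _ => ⟨g, hg, ?_⟩) (fun f _ => ih f)
      ext v
      -- evaluation in one variable
      have h4 : ∀ (P : k[X]) (f : MultilinearMap k (fun _ : σ => T) W),
          aeval (sl X {j}) P f v = f (Function.update v j (aeval X P (v j))) := by
        intro P
        induction P using Polynomial.induction_on' with
        | add p q hp hq =>
          intro f
          rw [map_add, LinearMap.add_apply, add_apply, hp, hq, map_add, LinearMap.add_apply,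
            MultilinearMap.map_update_add]
        | monomial n c =>
          intro f
          rw [aeval_monomial, aeval_monomial, Module.End.mul_apply, Module.End.mul_apply,
            Module.algebraMap_end_apply, Module.algebraMap_end_apply, smul_apply,
            MultilinearMap.map_update_smul]
          congr 1
          induction n generalizing f with
          | zero =>
            rw [pow_zero, pow_zero, Module.End.one_apply, Module.End.one_apply,
              Function.update_eq_self]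
          | succ n ihn =>
            rw [pow_succ, Module.End.mul_apply, ihn, sl_single, Function.update_self,
              Function.update_idem, pow_succ', Module.End.mul_apply]
      rw [h4, h, LinearMap.zero_apply, MultilinearMap.map_update_zero]
      rfl
    rw [h1]
    exact h3 Submodule.mem_top

/-- the map `v ↦ h(v) • y` -/
def tt {σ : Type} (h : MultilinearMap k (fun _ : σ => T) k) :
    W →ₗ[k] MultilinearMap k (fun _ : σ => T) W where
  toFun y := (LinearMap.toSpanSingleton k W y).compMultilinearMap h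
  map_add' y y' := by
    ext v
    exact smul_add _ _ _
  map_smul' r y := by
    ext v
    exact smul_comm (h v) r y

theorem tt_apply {σ : Type} (h : MultilinearMap k (fun _ : σ => T) k) (y : W) (v : σ → T) :
    tt h y v = h v • y := rfl

theorem mtens_le {σ : Type} {D : Submodule k (MultilinearMap k (fun _ : σ => T) k)}
    {Y : Submodule k W} {U : Submodule k (MultilinearMap k (fun _ : σ => T) W)}
    (h : ∀ f ∈ D, ∀ y ∈ Y, tt f y ∈ U) : mtens D Y ≤ U := by
  refine Submodule.span_le.2 ?_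
  rintro g ⟨f, hf, y, hy, hg⟩
  have h1 : g = tt f y := MultilinearMap.ext hg
  rw [h1]
  exact h f hf y hy

theorem tt_mem {σ : Type} {D : Submodule k (MultilinearMap k (fun _ : σ => T) k)}
    {Y : Submodule k W} {f : MultilinearMap k (fun _ : σ => T) k} (hf : f ∈ D) {y : W}
    (hy : y ∈ Y) : tt f y ∈ mtens D Y :=
  Submodule.subset_span ⟨f, hf, y, hy, fun _ => rfl⟩

/-- all maps with values in a space on which the operator is integral -/
theorem mul_int {γ : Γ} {g : ℤ[X]} (hg : g.Monic)
    (hgρ : aeval (ρ γ) (g.map (Int.castRingHom k)) = 0) {c : k} {σ : Type} [Fintype σ]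
    [DecidableEq σ] {Y : Submodule k W} (hYs : ∀ y ∈ Y, τ γ⁻¹ y ∈ Y)
    (hY : Y ≤ IS (c • τ γ⁻¹)) :
    mtens (⊤ : Submodule k (MultilinearMap k (fun _ : σ => T) k)) Y ≤
      IS (c • mulMap ρ τ σ γ⁻¹) := by
  let po : Module.End k (MultilinearMap k (fun _ : σ => T) W) :=
    { toFun := fun f => (c • τ γ⁻¹).compMultilinearMap f
      map_add' := fun _ _ => MultilinearMap.ext fun _ => map_add (c • τ γ⁻¹) _ _
      map_smul' := fun r _ => MultilinearMap.ext fun _ => map_smul (c • τ γ⁻¹) r _ }
  have hpo : ∀ f v, po f v = c • τ γ⁻¹ (f v) := fun _ _ => rfl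
  have h1 : c • mulMap ρ τ σ γ⁻¹ = sl (ρ γ) Finset.univ * po := by
    refine LinearMap.ext fun f => MultilinearMap.ext fun v => ?_
    rw [LinearMap.smul_apply, smul_apply, mulMap_apply, inv_inv, Module.End.mul_apply, sl_apply,
      hpo]
    simp only [Finset.mem_univ, if_true]
  rw [h1]
  have hval : ∀ f : MultilinearMap k (fun _ : σ => T) W, f ∈ mtens ⊤ Y ↔ ∀ v, f v ∈ Y := by
    intro f
    refine ⟨fun hf v => ?_, fun hf => mem_mtens Y f hf⟩
    let ev : MultilinearMap k (fun _ : σ => T) W →ₗ[k] W :=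
      { toFun := fun f => f v
        map_add' := fun _ _ => rfl
        map_smul' := fun _ _ => rfl }
    have h2 : mtens (⊤ : Submodule k (MultilinearMap k (fun _ : σ => T) k)) Y ≤ Y.comap ev :=
      mtens_le fun h _ y hy => Y.smul_mem _ hy
    exact h2 hf
  refine IS_mul (fun f => ?_) (fun f hf => ?_) (fun f hf => ?_) (fun f _ => sl_int hg hgρ _ f)
    (mtens_le fun h _ y hy => IS_inter (L := tt h) (fun y => ?_) (hY hy))
  · ext v
    rw [sl_apply, hpo, hpo, sl_apply]
  · rw [hval] at hf ⊢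
    intro v
    rw [sl_apply]
    exact hf _
  · rw [hval] at hf ⊢
    intro v
    rw [hpo]
    exact Y.smul_mem _ (hYs _ (hf v))
  · ext v
    rw [tt_apply, hpo, tt_apply, LinearMap.smul_apply, map_smul, smul_comm]

/-- products of `c` forms -/
theorem prods_int (hB : ∀ g u v, B (ρ g u) (ρ g v) = χ g ^ w * B u v) {γ : Γ} {q : k}
    (hq : q ≠ 0) (hγ : χ γ = q) {g : ℤ[X]} (hg : g.Monic)
    (hgρ : aeval (ρ γ) (g.map (Int.castRingHom k)) = 0) {μ : ℕ} {Y : Submodule k W}
    (hYs : ∀ y ∈ Y, τ γ⁻¹ y ∈ Y) (hY : Y ≤ IS ((q ^ μ)⁻¹ • τ γ⁻¹)) :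
    ∀ (c : ℕ) (σ : Type) [Fintype σ] [DecidableEq σ], ∀ h ∈ prods B c σ, ∀ y ∈ Y,
      tt h y ∈ IS ((q ^ (μ + w * c))⁻¹ • mulMap ρ τ σ γ⁻¹) := by
  intro c
  induction c with
  | zero =>
    intro σ _ _ h _ y hy
    rw [mul_zero, add_zero]
    exact mul_int hg hgρ hYs hY (tt_mem Submodule.mem_top hy)
  | succ c ih =>
    intro σ _ _ h hh y hy
    have hh' : h ∈ Submodule.span k {F | ∃ (a b : σ) (hab : a ≠ b)
      (g : MultilinearMap k (fun _ : {l : σ // l ≠ a ∧ l ≠ b} => T) k),
        g ∈ prods B c {l : σ // l ≠ a ∧ l ≠ b} ∧ F = ins hab B g} := hh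
    induction hh' using Submodule.span_induction with
    | zero =>
      have h1 : tt (0 : MultilinearMap k (fun _ : σ => T) k) y = 0 := by
        ext v
        rw [tt_apply]
        exact zero_smul _ _
      rw [h1]
      exact Submodule.zero_mem _
    | add f f' hf hf' h1 h2 =>
      have h3 : tt (f + f') y = tt f y + tt f' y := by
        ext v
        exact add_smul _ _ _
      rw [h3]
      exact Submodule.add_mem _ (h1 hf) (h2 hf')
    | smul r f hf h1 =>
      have h3 : tt (r • f) y = r • tt f y := by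
        ext v
        exact mul_smul _ _ _
      rw [h3]
      exact Submodule.smul_mem _ _ (h1 hf)
    | mem f hf =>
      obtain ⟨a, b, hab, g, hg', rfl⟩ := hf
      have h1 : tt (ins hab B g) y = ins hab B (tt g y) := by
        ext v
        rw [tt_apply, ins_apply, ins_apply, tt_apply, smul_smul, smul_eq_mul]
      rw [h1]
      refine IS_inter (L := ins hab B) (fun f => ?_) (ih {l : σ // l ≠ a ∧ l ≠ b} g hg' y hy)
      rw [LinearMap.smul_apply, LinearMap.smul_apply, map_smul,
        ins_act ρ τ (c := q ^ w) (fun u v => by rw [inv_inv, hB, hγ]), smul_smul]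
      congr 1
      rw [mul_add, mul_one, ← add_assoc, pow_add q (μ + w * c) w, mul_inv, mul_assoc,
        inv_mul_cancel₀ (pow_ne_zero _ hq), mul_one]

/-- the products are stable -/
theorem prods_stable (hB : ∀ g u v, B (ρ g u) (ρ g v) = χ g ^ w * B u v) (s : Γ) :
    ∀ (c : ℕ) (σ : Type) [Fintype σ] [DecidableEq σ], ∀ h ∈ prods B c σ,
      h.compLinearMap (fun _ => ρ s) ∈ prods B c σ := by
  intro c
  induction c with
  | zero => exact fun σ _ _ h _ => Submodule.mem_top
  | succ c ih =>
    intro σ _ _ h hh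
    have h1 : prods B (c + 1) σ ≤ (prods B (c + 1) σ).comap
        (MultilinearMap.compLinearMapₗ fun _ => ρ s) := by
      refine Submodule.span_le.2 ?_
      rintro _ ⟨a, b, hab, g, hg, rfl⟩
      have h2 : (ins hab B g).compLinearMap (fun _ => ρ s) =
          (χ s ^ w) • ins hab B (g.compLinearMap fun _ => ρ s) := by
        ext v
        rw [MultilinearMap.compLinearMap_apply, ins_apply, smul_apply, ins_apply, hB, smul_eq_mul,
          smul_eq_mul, smul_eq_mul, mul_assoc]
        rfl
      change (ins hab B g).compLinearMap (fun _ => ρ s) ∈ prods B (c + 1) σ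
      rw [h2]
      exact Submodule.smul_mem _ _ (Submodule.subset_span ⟨a, b, hab, _, ih _ g hg, rfl⟩)
    exact h1 hh

theorem coniv_stable (P : Set (Γ × ℕ × ℕ)) (μ : ℕ) (s : Γ) :
    ∀ y ∈ coniv τ P μ, τ s y ∈ coniv τ P μ := by
  have h1 : coniv τ P μ ≤ (coniv τ P μ).comap (τ s) := by
    refine sSup_le fun U hU u hu => ?_
    have h2 : U ≤ coniv τ P μ := le_sSup hU
    exact h2 (hU.1 s u hu)
  exact fun y hy => h1 hy

/-- **The other inclusion.** -/
theorem tgt_le (h : Polarized ε B ρ χ w) {m : ℕ} {P : Set (Γ × ℕ × ℕ)}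
    (hP : ∀ x ∈ P, x.2.1.Prime ∧ 0 < x.2.2 ∧ UnitFrobenius ρ χ m x.2.1 x.2.2 x.1)
    {σ : Type} [Fintype σ] [DecidableEq σ] (ν : ℕ) :
    Tgt B τ P w σ ν ≤ coniv (mulRep ρ τ σ) P ν := by
  refine iSup_le fun c => le_sSup ⟨fun s => ?_, fun x hx => ?_⟩
  · have h1 : mtens (prods B c σ) (coniv τ P (ν - w * c)) ≤
        (mtens (prods B c σ) (coniv τ P (ν - w * c))).comap (mulMap ρ τ σ s) := by
      refine mtens_le fun f hf y hy => ?_
      have h2 : mulMap ρ τ σ s (tt f y) = tt (f.compLinearMap fun _ => ρ s⁻¹) (τ s y) := by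
        ext v
        rw [mulMap_apply, tt_apply, tt_apply, map_smul]
        rfl
      change mulMap ρ τ σ s (tt f y) ∈ mtens (prods B c σ) (coniv τ P (ν - w * c))
      rw [h2]
      exact tt_mem (prods_stable h.sim s⁻¹ c σ f hf) (coniv_stable P _ s y hy)
    exact fun u hu => h1 hu
  · obtain ⟨hp, ha, hγ⟩ := hP x hx
    obtain ⟨g, hgρ, -⟩ := hγ.units
    have hq : ((x.2.1 : k) ^ x.2.2) ≠ 0 := pow_ne_zero _ (Nat.cast_ne_zero.2 hp.ne_zero)
    have hgm : g.Monic := by
      refine Polynomial.monic_of_injective (RingHom.injective_int (Int.castRingHom k)) ?_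
      rw [hgρ]
      exact LinearMap.charpoly_monic _
    have hgρ' : aeval (ρ x.1) (g.map (Int.castRingHom k)) = 0 := by
      rw [hgρ]
      exact LinearMap.aeval_self_charpoly _
    have hY : coniv τ P (ν - w * c) ≤
        IS ((((x.2.1 : k) ^ x.2.2) ^ (ν - w * c))⁻¹ • τ x.1⁻¹) :=
      sSup_le fun U hU => IS_of_entire hp.ne_zero (hU.2 x hx)
    have h1 : mtens (prods B c σ) (coniv τ P (ν - w * c)) ≤
        IS ((((x.2.1 : k) ^ x.2.2) ^ (ν - w * c + w * c))⁻¹ • mulMap ρ τ σ x.1⁻¹) :=
      mtens_le fun f hf y hy => prods_int h.sim hq hγ.cyc hgm hgρ'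
        (fun y hy => coniv_stable P _ _ y hy) hY c σ f hf y hy
    refine entire_of_IS hp.ne_zero ?_
    -- multiply by a power of `q`
    obtain ⟨d, hd⟩ : ∃ d, ν - w * c + w * c = ν + d := ⟨ν - w * c + w * c - ν, by omega⟩
    have h2 : (((x.2.1 : k) ^ x.2.2) ^ ν)⁻¹ • mulMap ρ τ σ x.1⁻¹ =
        (((x.2.1 : k) ^ x.2.2) ^ d • (1 : Module.End k (MultilinearMap k (fun _ : σ => T) W))) *
        ((((x.2.1 : k) ^ x.2.2) ^ (ν - w * c + w * c))⁻¹ • mulMap ρ τ σ x.1⁻¹) := by
      rw [smul_mul_assoc, one_mul, smul_smul, hd, pow_add _ ν d, mul_inv_rev, ← mul_assoc,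
        mul_inv_cancel₀ (pow_ne_zero _ hq), one_mul]
    change mtens (prods B c σ) (coniv τ P (ν - w * c)) ≤
      IS ((((x.2.1 : k) ^ x.2.2) ^ ν)⁻¹ • mulMap ρ τ σ x.1⁻¹)
    rw [h2]
    have h3 : ∀ s, ∀ u ∈ mtens (prods B c σ) (coniv τ P (ν - w * c)),
        mulMap ρ τ σ s u ∈ mtens (prods B c σ) (coniv τ P (ν - w * c)) := by
      intro s
      have h1 : mtens (prods B c σ) (coniv τ P (ν - w * c)) ≤
          (mtens (prods B c σ) (coniv τ P (ν - w * c))).comap (mulMap ρ τ σ s) := by
        refine mtens_le fun f hf y hy => ?_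
        have h2 : mulMap ρ τ σ s (tt f y) = tt (f.compLinearMap fun _ => ρ s⁻¹) (τ s y) := by
          ext v
          rw [mulMap_apply, tt_apply, tt_apply, map_smul]
          rfl
        change mulMap ρ τ σ s (tt f y) ∈ mtens (prods B c σ) (coniv τ P (ν - w * c))
        rw [h2]
        exact tt_mem (prods_stable h.sim s⁻¹ c σ f hf) (coniv_stable P _ s y hy)
      exact fun u hu => h1 hu
    refine IS_mul (fun v => ?_) (fun u hu => Submodule.smul_mem _ _ hu)
      (fun u hu => Submodule.smul_mem _ _ (h3 _ u hu)) (fun u hu => ?_) h1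
    · simp only [LinearMap.smul_apply, Module.End.one_apply, map_smul]
      rw [smul_comm]
    · refine ⟨Polynomial.X - C (((x.2.1 : ℤ) ^ x.2.2) ^ d), monic_X_sub_C _, ?_⟩
      rw [Polynomial.map_sub, Polynomial.map_X, Polynomial.map_C, map_sub, aeval_X, aeval_C,
        LinearMap.sub_apply, LinearMap.smul_apply, Module.End.one_apply,
        Module.algebraMap_end_apply]
      have h5 : (Int.castRingHom k) (((x.2.1 : ℤ) ^ x.2.2) ^ d) = ((x.2.1 : k) ^ x.2.2) ^ d := by
        rw [map_pow, map_pow, map_natCast]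
      rw [h5]
      exact sub_self _

/-- **The Künneth formula for symmetric maps.** -/
theorem kunneth_eq (h : Polarized ε B ρ χ w) (hw : 0 < w) (big : BigImage B ρ τ) {m : ℕ}
    (hm : ε = 1 → 2 * m < finrank k T) {P : Set (Γ × ℕ × ℕ)}
    (hP : ∀ x ∈ P, x.2.1.Prime ∧ 0 < x.2.2 ∧ UnitFrobenius ρ χ m x.2.1 x.2.2 x.1)
    (hW : ∀ x ∈ P, EntireOn x.2.1 x.2.2 0 (τ x.1⁻¹) ⊤) {σ : Type} [Fintype σ] [DecidableEq σ]
    (β : σ → Fin m) (ν : ℕ) :
    coniv (mulRep ρ τ σ) P ν ⊓ symMaps β = Tgt B τ P w σ ν ⊓ symMaps β :=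
  le_antisymm (le_inf (kunneth h hw big hm hP hW β ν) inf_le_right)
    (inf_le_inf_right _ (tgt_le h hP ν))

end

end Pool.Agent.V5helper93.SMQ
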