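import Pool.Agent.V5helper93.SMP.Vals

/-!
# Maps which are symmetric in blocks of variables
-/

set_option autoImplicit false
set_option linter.unusedSectionVars false

namespace Pool.Agent.V5helper93.SMQ

open Module Polynomial Pool.Agent.V5helper93.GTC

open Pool.Agent.V5helper93.SMP (mulMap mulMap_apply ctr ctr_res res res_surj KS KS_apply ins
  ins_apply)

noncomputable section

/-- `B` is nondegenerate, symmetric (`ε = 1`) or alternating (`ε = -1`), and the group acts by
similitudes with the factor `χ ^ w`. -/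
structure Polarized {k T Γ : Type} [Field k] [AddCommGroup T] [Module k T] [Group Γ] (ε : ℤ)
    (B : T →ₗ[k] T →ₗ[k] k) (ρ : Representation k Γ T) (χ : Γ →* k) (w : ℕ) : Prop where
  sign : ε = 1 ∨ ε = -1
  symm : ∀ u v, B u v = (ε : k) * B v u
  nondeg : ∀ u, (∀ v, B u v = 0) → u = 0
  sim : ∀ g u v, B (ρ g u) (ρ g v) = χ g ^ w * B u v

variable {k T W : Type} [Field k] [AddCommGroup T] [Module k T] [AddCommGroup W] [Module k W]
  {σ I : Type}

/-- The multilinear maps of the vectors `v_j` (`j` in `σ`) which are symmetric in the vectors of each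
block `{j | β j = i}`. -/
def symMaps (β : σ → I) : Submodule k (MultilinearMap k (fun _ : σ => T) W) where
  carrier := {f | ∀ π : Equiv.Perm σ, (∀ j, β (π j) = β j) → ∀ v : σ → T,
    f (fun j => v (π j)) = f v}
  add_mem' := by
    intro f g hf hg π hπ v
    rw [add_apply, add_apply, hf π hπ, hg π hπ]
  zero_mem' := by
    intro π hπ v
    rfl
  smul_mem' := by
    intro r f hf π hπ v
    rw [smul_apply, smul_apply, hf π hπ]

theorem mem_symMaps {β : σ → I} {f : MultilinearMap k (fun _ : σ => T) W} : f ∈ symMaps β ↔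
    ∀ π : Equiv.Perm σ, (∀ j, β (π j) = β j) → ∀ v : σ → T, f (fun j => v (π j)) = f v := Iff.rfl

variable {Γ : Type} [Group Γ]

theorem sym_mulMap (ρ : Representation k Γ T) (τ : Representation k Γ W) {β : σ → I} (s : Γ)
    {f : MultilinearMap k (fun _ : σ => T) W} (hf : f ∈ symMaps β) :
    mulMap ρ τ σ s f ∈ symMaps β := by
  intro π hπ v
  rw [mulMap_apply, mulMap_apply]
  exact congrArg (τ s) (hf π hπ fun l => ρ s⁻¹ (v l))

variable [DecidableEq σ]

theorem update_perm {X : Type} (v : σ → X) (π : Equiv.Perm σ) (a : σ) (x : X) :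
    Function.update (fun j => v (π j)) a x = fun j => Function.update v (π a) x (π j) := by
  funext j
  by_cases h : j = a
  · subst h
    rw [Function.update_self, Function.update_self]
  · rw [Function.update_of_ne h, Function.update_of_ne fun h' => h (π.injective h')]

variable {ι : Type} [Fintype ι]

theorem ctr_perm {β : σ → I} {f : MultilinearMap k (fun _ : σ => T) W} (hf : f ∈ symMaps β)
    {π : Equiv.Perm σ} (hπ : ∀ j, β (π j) = β j) {a b : σ} (hab : a ≠ b) (d d' : ι → T)
    (v : σ → T) : ctr hab d d' f (res a b fun j => v (π j)) =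
      ctr (fun h => hab (π.injective h)) d d' f (res (π a) (π b) v) := by
  rw [ctr_res, ctr_res]
  refine Finset.sum_congr rfl fun i _ => ?_
  rw [update_perm, update_perm]
  exact hf π hπ _

theorem sym_ctr {β : σ → I} {f : MultilinearMap k (fun _ : σ => T) W} (hf : f ∈ symMaps β)
    {a b : σ} (hab : a ≠ b) (d d' : ι → T) :
    ctr hab d d' f ∈ symMaps (fun l : {l : σ // l ≠ a ∧ l ≠ b} => β l.1) := by
  intro π hπ w
  obtain ⟨v, rfl⟩ := res_surj a b w
  -- extend the permutation
  let π' : Equiv.Perm σ := Equiv.Perm.ofSubtype π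
  have h1 : ∀ l : {l : σ // l ≠ a ∧ l ≠ b}, π' l.1 = (π l).1 := fun l =>
    Equiv.Perm.ofSubtype_apply_coe π l
  have h2 : ∀ j, ¬ (j ≠ a ∧ j ≠ b) → π' j = j := fun j hj =>
    Equiv.Perm.ofSubtype_apply_of_not_mem π hj
  have ha : π' a = a := h2 a fun h => h.1 rfl
  have hb : π' b = b := h2 b fun h => h.2 rfl
  have hβ : ∀ j, β (π' j) = β j := by
    intro j
    by_cases hj : j ≠ a ∧ j ≠ b
    · rw [h1 ⟨j, hj⟩]
      exact hπ ⟨j, hj⟩
    · rw [h2 j hj]
  have h3 : (fun l => res a b v (π l)) = res a b fun j => v (π' j) := by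
    funext l
    exact congrArg v (h1 l).symm
  rw [h3, ctr_res, ctr_res]
  refine Finset.sum_congr rfl fun i _ => ?_
  rw [update_perm, update_perm, ha, hb]
  exact hf π' hβ _

theorem sym_KS [Fintype σ] {β : σ → I} {f : MultilinearMap k (fun _ : σ => T) W}
    (hf : f ∈ symMaps β) (B : T →ₗ[k] T →ₗ[k] k) (d d' : ι → T) : KS B d d' f ∈ symMaps β := by
  intro π hπ v
  rw [KS_apply, sum_apply, sum_apply]
  refine Fintype.sum_equiv (Equiv.subtypeEquiv (Equiv.prodCongr π π) fun p => ?_) _ _ fun p => ?_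
  · exact not_congr (π.injective.eq_iff).symm
  · rw [ins_apply, ins_apply]
    congr 1
    exact ctr_perm hf hπ p.2 d d' v

/-! ### symmetrization -/

section symm

variable [Fintype σ] [CharZero k] [DecidableEq I]

/-- the permutations preserving the blocks -/
def bp (β : σ → I) : Finset (Equiv.Perm σ) := Finset.univ.filter fun π => ∀ j, β (π j) = β j

theorem mem_bp {β : σ → I} {π : Equiv.Perm σ} : π ∈ bp β ↔ ∀ j, β (π j) = β j := by
  rw [bp, Finset.mem_filter]
  exact and_iff_right (Finset.mem_univ _)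

/-- the projection onto the symmetric maps -/
def symz (β : σ → I) : Module.End k (MultilinearMap k (fun _ : σ => T) W) where
  toFun f := ((bp β).card : k)⁻¹ • ∑ π ∈ bp β, f.domDomCongr π
  map_add' f g := by
    rw [← smul_add, ← Finset.sum_add_distrib]
    rfl
  map_smul' r f := by
    rw [RingHom.id_apply, smul_comm r]
    congr 1
    rw [Finset.smul_sum]
    rfl

theorem symz_apply (β : σ → I) (f : MultilinearMap k (fun _ : σ => T) W) (v : σ → T) :
    symz β f v = ((bp β).card : k)⁻¹ • ∑ π ∈ bp β, f fun j => v (π j) := by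
  change (((bp β).card : k)⁻¹ • ∑ π ∈ bp β, f.domDomCongr π) v = _
  rw [smul_apply, sum_apply]
  rfl

theorem symz_mem (β : σ → I) (f : MultilinearMap k (fun _ : σ => T) W) :
    symz β f ∈ symMaps β := by
  intro π hπ v
  rw [symz_apply, symz_apply]
  congr 1
  refine Finset.sum_bij' (fun π' _ => π * π') (fun π' _ => π⁻¹ * π') (fun π' hπ' => ?_)
    (fun π' hπ' => ?_) (fun π' _ => ?_) (fun π' _ => ?_) (fun π' _ => ?_)
  · rw [mem_bp] at hπ' ⊢
    intro j
    rw [Equiv.Perm.mul_apply, hπ, hπ']
  · rw [mem_bp] at hπ' ⊢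
    intro j
    have h1 := hπ (π⁻¹ (π' j))
    rw [← Equiv.Perm.mul_apply π π⁻¹, mul_inv_cancel, Equiv.Perm.one_apply, hπ'] at h1
    exact h1.symm
  · rw [inv_mul_cancel_left]
  · rw [mul_inv_cancel_left]
  · rfl

theorem symz_self {β : σ → I} {f : MultilinearMap k (fun _ : σ => T) W} (hf : f ∈ symMaps β) :
    symz β f = f := by
  ext v
  rw [symz_apply, Finset.sum_congr rfl (g := fun _ => f v) fun π hπ => hf π (mem_bp.1 hπ) v,
    Finset.sum_const, ← Nat.cast_smul_eq_nsmul k, smul_smul, inv_mul_cancel₀, one_smul]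
  intro h0
  rw [Nat.cast_eq_zero, Finset.card_eq_zero] at h0
  have h1 : (1 : Equiv.Perm σ) ∈ bp β := mem_bp.2 fun j => rfl
  rw [h0] at h1
  exact Finset.notMem_empty _ h1

theorem symz_act (ρ : Representation k Γ T) (τ : Representation k Γ W) (β : σ → I) (s : Γ)
    (f : MultilinearMap k (fun _ : σ => T) W) :
    symz β (mulMap ρ τ σ s f) = mulMap ρ τ σ s (symz β f) := by
  ext v
  rw [symz_apply, mulMap_apply, symz_apply, map_smul, map_sum]
  rfl

end symm

end

end Pool.Agent.V5helper93.SMQ
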