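import Pool.Agent.V5helper93.SMP.Der

/-!
# Large images: stable spaces are stable under the Lie algebra of the form
-/

set_option autoImplicit false
set_option linter.unusedSectionVars false

namespace Pool.Agent.V5helper93.SMQ

open Module Polynomial Pool.Agent.V5helper93.GTC

open Pool.Agent.V5helper93.SMP (curve BigImage lf lf_apply so_stable mulMap)

noncomputable section

variable {k T W : Type} [Field k] [CharZero k] [AddCommGroup T] [Module k T]
  [AddCommGroup W] [Module k W]

/-- the elements of the Lie algebra -/
def XX (ε : ℤ) (B : T →ₗ[k] T →ₗ[k] k) (a c : T) : Module.End k T :=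
  (B a).smulRight c - (ε : k) • (B c).smulRight a

theorem XX_apply (ε : ℤ) (B : T →ₗ[k] T →ₗ[k] k) (a c v : T) :
    XX ε B a c v = B a v • c - (ε : k) • B c v • a := rfl

variable [FiniteDimensional k T] {Γ : Type} [Group Γ] {B : T →ₗ[k] T →ₗ[k] k}
  {ρ : Representation k Γ T} {τ : Representation k Γ W}

section stable

variable {σ : Type} [Fintype σ] [DecidableEq σ]
  {U : Submodule k (MultilinearMap k (fun _ : σ => T) W)}

/-- transvections -/
theorem trans_stable (big : BigImage B ρ τ) (hs : ∀ u v, B u v = -B v u)
    (hU : ∀ s, ∀ f ∈ U, mulMap ρ τ σ s f ∈ U)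
    {f : MultilinearMap k (fun _ : σ => T) W} (hf : f ∈ U) (a : T) (t : k) :
    f.compLinearMap (fun _ => LinearMap.transvection (t • B a) a) ∈ U := by
  have haa : B a a = 0 := by
    have h1 := hs a a
    have h2 : (2 : k) * B a a = 0 := by linear_combination h1
    exact (mul_eq_zero.1 h2).resolve_left two_ne_zero
  refine so_stable big hU hf (fun u v => ?_) ?_
  · simp only [LinearMap.transvection.apply, LinearMap.smul_apply, map_add, map_smul,
      LinearMap.add_apply, smul_eq_mul, haa]
    rw [hs u a]
    ring
  · rw [LinearMap.transvection.det, LinearMap.smul_apply, haa, smul_zero, add_zero]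

theorem sq_stable (big : BigImage B ρ τ) (hs : ∀ u v, B u v = -B v u)
    (hU : ∀ s, ∀ f ∈ U, mulMap ρ τ σ s f ∈ U)
    {f : MultilinearMap k (fun _ : σ => T) W} (hf : f ∈ U) (a : T) :
    dW ((B a).smulRight a) f ∈ U := by
  by_contra hcon
  obtain ⟨l, hl, hlU⟩ := Submodule.exists_le_ker_of_notMem hcon
  apply hl
  let e : Fin 3 → Module.End k T := ![LinearMap.id, (B a).smulRight a, 0]
  have h2 := curve (lf l f) e 1 one_ne_zero (fun t _ => by
    have h4 : e 0 + t • e 1 + t ^ 2 • e 2 = LinearMap.transvection (t • B a) a := by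
      ext v
      change v + t • (B a v • a) + t ^ 2 • (0 : T) = _
      rw [LinearMap.transvection.apply, LinearMap.smul_apply, smul_zero, add_zero, smul_eq_mul,
        mul_smul]
    rw [h4, lf_apply]
    exact hlU (trans_stable big hs hU hf a t))
  have h4 : dW ((B a).smulRight a) f =
      ∑ j, f.compLinearMap (Function.update (fun _ => e 0) j (e 1)) := by
    ext v
    rw [dW_apply, sum_apply]
    refine Finset.sum_congr rfl fun j _ => ?_
    rw [MultilinearMap.compLinearMap_apply]
    congr 1
    funext i
    by_cases hi : i = j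
    · subst hi
      rw [Function.update_self, Function.update_self]
      rfl
    · rw [Function.update_of_ne hi, Function.update_of_ne hi]
      rfl
  rw [h4, map_sum]
  exact h2

/-- **Stable spaces are stable under the Lie algebra.** -/
theorem der_stable {ε : ℤ} (hε : ε = 1 ∨ ε = -1) (big : BigImage B ρ τ)
    (hs : ∀ u v, B u v = (ε : k) * B v u) (hnd : ∀ u, (∀ w, B u w = 0) → u = 0)
    (hU : ∀ s, ∀ f ∈ U, mulMap ρ τ σ s f ∈ U)
    {f : MultilinearMap k (fun _ : σ => T) W} (hf : f ∈ U) (a c : T) :
    dW (XX ε B a c) f ∈ U := by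
  rcases hε with rfl | rfl
  · have h1 : XX 1 B a c = Pool.Agent.V5helper93.SMP.XX B a c := by
      ext v
      rw [XX_apply, Pool.Agent.V5helper93.SMP.XX_apply, Int.cast_one, one_smul]
    rw [h1]
    exact Pool.Agent.V5helper93.SMP.der_stable big (fun u v => by
      rw [hs u v, Int.cast_one, one_mul]) hnd hU hf a c
  · have hs' : ∀ u v, B u v = -B v u := by
      intro u v
      rw [hs u v]
      push_cast
      ring
    have h1 : XX (-1) B a c = (1 : k) • ((B (a + c)).smulRight (a + c)) -
        (1 : k) • ((1 : k) • ((B a).smulRight a) + (1 : k) • ((B c).smulRight c)) := by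
      ext v
      simp only [XX_apply, LinearMap.sub_apply, LinearMap.add_apply, LinearMap.smul_apply,
        LinearMap.smulRight_apply, map_add]
      push_cast
      module
    rw [h1, dW_sub, dW_smul, dW_smul, dW_add, dW_smul, dW_smul]
    exact U.sub_mem (U.smul_mem _ (sq_stable big hs' hU hf (a + c)))
      (U.smul_mem _ (U.add_mem (U.smul_mem _ (sq_stable big hs' hU hf a))
        (U.smul_mem _ (sq_stable big hs' hU hf c))))

end stable

end

end Pool.Agent.V5helper93.SMQ
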