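import Pool.Agent.V5helper93.SMQ.Vals
import Pool.Agent.V5helper93.SMP.Main

/-!
# The Künneth formula for maps which are symmetric in few blocks of variables
-/

set_option autoImplicit false
set_option linter.unusedSectionVars false

namespace Pool.Agent.V5helper93.SMQ

open Module Polynomial Pool.Agent.V5helper93.GTC Pool.Agent.Y128.GT

open Pool.Agent.V5helper93.SMP (mulMap mulMap_apply mulRep ctr ctr_res ctr_act res BigImage
  UnitFrobenius vals vals_stable DP KS KS_apply KS_act NN mem_NN NN_stable NN_kill le_NN NN_comm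
  chi_ne fitting mem_mtens mtens prods Tgt ins_Tgt mem_Tgt_zero shift)

noncomputable section

variable {k T W Γ : Type} [Field k] [CharZero k] [AddCommGroup T] [Module k T]
  [FiniteDimensional k T] [AddCommGroup W] [Module k W] [FiniteDimensional k W] [Group Γ]
  {ε : ℤ} {B : T →ₗ[k] T →ₗ[k] k} {ρ : Representation k Γ T} {χ : Γ →* k} {w : ℕ}
  {τ : Representation k Γ W}

/-- **The Künneth formula for symmetric maps.** -/
theorem kunneth_aux (h : Polarized ε B ρ χ w) (hw : 0 < w) (big : BigImage B ρ τ) {m : ℕ}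
    (hm : ε = 1 → 2 * m < finrank k T) {P : Set (Γ × ℕ × ℕ)}
    (hP : ∀ x ∈ P, x.2.1.Prime ∧ 0 < x.2.2 ∧ UnitFrobenius ρ χ m x.2.1 x.2.2 x.1)
    (hW : ∀ x ∈ P, EntireOn x.2.1 x.2.2 0 (τ x.1⁻¹) ⊤) :
    ∀ (n : ℕ) (σ : Type) [Fintype σ] [DecidableEq σ] (β : σ → Fin m), Fintype.card σ = n →
      ∀ (ν : ℕ) (U : Submodule k (MultilinearMap k (fun _ : σ => T) W)),
        (∀ s, ∀ f ∈ U, mulMap ρ τ σ s f ∈ U) →
        (∀ x ∈ P, EntireOn x.2.1 x.2.2 ν (mulMap ρ τ σ x.1⁻¹) U) →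
        U ≤ symMaps β → U ≤ Tgt B τ P w σ ν := by
  obtain ⟨ι₀, _, _, d, d', hd⟩ := exists_DP h.symm h.nondeg
  intro n
  induction n using Nat.strong_induction_on with
  | _ n ih =>
    intro σ _ _ β hσ ν U hU1 hU2 hUS f hf
    -- the polynomials
    choose! Q hQ using hU2
    let Q' : P → k[X] := fun x => Q x.1
    let NS : Submodule k (MultilinearMap k (fun _ : σ => T) W) := NN ρ τ P Q' σ ⊓ symMaps β
    have hUN : U ≤ NS := le_inf (le_NN ρ τ P Q' σ hU1 fun x f hf => (hQ x.1 x.2).2.1 f hf) hUS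
    have hKS : ∀ (s : Γ) (f : MultilinearMap k (fun _ : σ => T) W),
        KS B d d' (mulMap ρ τ σ s f) = mulMap ρ τ σ s (KS B d d' f) := fun s f =>
      KS_act ρ τ hd (chi_ne χ s⁻¹ w) (h.sim s⁻¹) f
    have hNKS : ∀ f ∈ NS, KS B d d' f ∈ NS := fun f hf =>
      ⟨NN_comm ρ τ P Q' σ hKS f hf.1, sym_KS hf.2 B d d'⟩
    have hNSt : ∀ s, ∀ f ∈ NS, mulMap ρ τ σ s f ∈ NS := fun s f hf =>
      ⟨NN_stable ρ τ P Q' σ s f hf.1, sym_mulMap ρ τ s hf.2⟩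
    -- the decomposition
    obtain ⟨⟨f₀, hf₀⟩, ⟨f₁, hf₁⟩, hdec, hf₀'⟩ := fitting ((KS B d d').restrict hNKS) (fun v hv => by
      have h1 : KS B d d' (KS B d d' v.1) = 0 := congrArg Subtype.val hv
      exact Subtype.ext (harm h.sign h.symm hd v.1 h1).1) ⟨f, hUN hf⟩
    have hdec' : f = f₀ + KS B d d' f₁ := congrArg Subtype.val hdec
    have hf₀K : KS B d d' f₀ = 0 := congrArg Subtype.val hf₀'
    rw [hdec']
    refine Submodule.add_mem _ ?_ ?_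
    · -- the traceless part
      let U₀ : Submodule k (MultilinearMap k (fun _ : σ => T) W) :=
        NS ⊓ LinearMap.ker (KS B d d')
      have hU₀ : ∀ s, ∀ f ∈ U₀, mulMap ρ τ σ s f ∈ U₀ := by
        rintro s f ⟨hf1, hf2⟩
        refine ⟨hNSt s f hf1, ?_⟩
        rw [SetLike.mem_coe, LinearMap.mem_ker] at hf2 ⊢
        rw [hKS, hf2, map_zero]
      have hctr : ∀ f ∈ U₀, ∀ (x y : σ) (hxy : x ≠ y), ctr hxy d d' f = 0 := by
        rintro f ⟨-, hf2⟩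
        rw [SetLike.mem_coe, LinearMap.mem_ker] at hf2
        exact (harm h.sign h.symm hd f (by rw [hf2, map_zero])).2
      have h1 : vals U₀ ≤ coniv τ P ν := le_sSup ⟨vals_stable hU₀, fun x hx =>
        vals_entire h hw big (hP x hx).1 (hP x hx).2.1 (hP x hx).2.2 (β := β) hm
          (fun f hf => hf.1.2) hU₀ ⟨Q x, (hQ x hx).1, fun f hf =>
            NN_kill ρ τ P Q' σ ⟨x, hx⟩ f hf.1.1, (hQ x hx).2.2⟩ hd hctr⟩
      refine Submodule.mem_iSup_of_mem 0 ?_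
      rw [mul_zero, Nat.sub_zero]
      exact mem_mtens _ _ fun v => h1 (Submodule.subset_span ⟨f₀, ⟨hf₀, hf₀K⟩, v, rfl⟩)
    · -- the other part
      rw [KS_apply]
      refine Submodule.sum_mem _ fun p _ => ins_Tgt p.2 ?_
      obtain ⟨⟨a, b⟩, hab⟩ := p
      simp only at hab ⊢
      by_cases hν : w ≤ ν
      · have hcard : Fintype.card {l : σ // l ≠ a ∧ l ≠ b} < n := by
          rw [← hσ]
          exact Fintype.card_subtype_lt (x := a) fun h0 => h0.1 rfl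
        refine ih _ hcard {l : σ // l ≠ a ∧ l ≠ b} (fun l => β l.1) rfl (ν - w)
          (NS.map (ctr hab d d')) ?_ (fun x hx => ?_) ?_ ⟨f₁, hf₁, rfl⟩
        · rintro s _ ⟨g, hg, rfl⟩
          have h2 := ctr_act ρ τ hd (chi_ne χ s⁻¹ w) (h.sim s⁻¹) hab g
          have h3 : mulMap ρ τ {l : σ // l ≠ a ∧ l ≠ b} s (ctr hab d d' g) =
              (χ s⁻¹ ^ w)⁻¹ • ctr hab d d' (mulMap ρ τ σ s g) := by
            rw [h2, smul_smul, inv_mul_cancel₀ (chi_ne χ s⁻¹ w), one_smul]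
          rw [h3]
          exact Submodule.smul_mem _ _ ⟨_, hNSt s g hg, rfl⟩
        · refine shift (hP x hx).1.ne_zero hν (R := mulMap ρ τ σ x.1⁻¹)
            (R' := mulMap ρ τ {l : σ // l ≠ a ∧ l ≠ b} x.1⁻¹) (L := ctr hab d d')
            (fun g => ?_) ⟨Q x, (hQ x hx).1, fun f hf =>
              NN_kill ρ τ P Q' σ ⟨x, hx⟩ f hf.1, (hQ x hx).2.2⟩
          refine ctr_act ρ τ hd (c := ((x.2.1 : k) ^ x.2.2) ^ w) ?_ (fun u v => ?_) hab g
          · exact pow_ne_zero _ (pow_ne_zero _ (Nat.cast_ne_zero.2 (hP x hx).1.ne_zero))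
          · rw [inv_inv, h.sim, (hP x hx).2.2.cyc]
        · rintro _ ⟨g, hg, rfl⟩
          exact sym_ctr hg.2 hab d d'
      · exact mem_Tgt_zero hW (by omega) _

/-- the symmetrization of a space -/
theorem map_symz {σ I : Type} [Fintype σ] [DecidableEq σ] [DecidableEq I] (β : σ → I)
    {P : Set (Γ × ℕ × ℕ)} {ν : ℕ}
    {U : Submodule k (MultilinearMap k (fun _ : σ => T) W)}
    (hU1 : ∀ s, ∀ f ∈ U, mulMap ρ τ σ s f ∈ U)
    (hU2 : ∀ x ∈ P, EntireOn x.2.1 x.2.2 ν (mulMap ρ τ σ x.1⁻¹) U) :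
    (∀ s, ∀ f ∈ U.map (symz β), mulMap ρ τ σ s f ∈ U.map (symz β)) ∧
    (∀ x ∈ P, EntireOn x.2.1 x.2.2 ν (mulMap ρ τ σ x.1⁻¹) (U.map (symz β))) ∧
    U.map (symz β) ≤ symMaps β := by
  refine ⟨?_, fun x hx => ?_, ?_⟩
  · rintro s _ ⟨f, hf, rfl⟩
    rw [← symz_act]
    exact ⟨_, hU1 s f hf, rfl⟩
  · obtain ⟨Q, hQm, hQU, hQβ⟩ := hU2 x hx
    refine ⟨Q, hQm, ?_, hQβ⟩
    rintro _ ⟨f, hf, rfl⟩
    rw [← aeval_inter (mulMap ρ τ σ x.1⁻¹) (mulMap ρ τ σ x.1⁻¹) (symz β)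
      (fun v => symz_act ρ τ β x.1⁻¹ v), hQU f hf, map_zero]
  · rintro _ ⟨f, hf, rfl⟩
    exact symz_mem β f

/-- **The Künneth formula for symmetric maps.** -/
theorem kunneth (h : Polarized ε B ρ χ w) (hw : 0 < w) (big : BigImage B ρ τ) {m : ℕ}
    (hm : ε = 1 → 2 * m < finrank k T) {P : Set (Γ × ℕ × ℕ)}
    (hP : ∀ x ∈ P, x.2.1.Prime ∧ 0 < x.2.2 ∧ UnitFrobenius ρ χ m x.2.1 x.2.2 x.1)
    (hW : ∀ x ∈ P, EntireOn x.2.1 x.2.2 0 (τ x.1⁻¹) ⊤) {σ : Type} [Fintype σ] [DecidableEq σ]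
    (β : σ → Fin m) (ν : ℕ) :
    coniv (mulRep ρ τ σ) P ν ⊓ symMaps β ≤ Tgt B τ P w σ ν := by
  rintro f ⟨hf, hfS⟩
  have h1 : coniv (mulRep ρ τ σ) P ν ≤ (Tgt B τ P w σ ν).comap (symz β) := by
    refine sSup_le fun U hU f hf => ?_
    obtain ⟨hU1, hU2⟩ := hU
    obtain ⟨h2, h3, h4⟩ := map_symz (ρ := ρ) (τ := τ) β hU1 hU2
    exact kunneth_aux h hw big hm hP hW _ σ β rfl ν _ h2 h3 h4 ⟨f, hf, rfl⟩
  have h2 : symz β f ∈ Tgt B τ P w σ ν := h1 hf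
  rwa [symz_self hfS] at h2

end

end Pool.Agent.V5helper93.SMQ
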