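import Pool.Agent.V5helper93.SMQ.Defs
import Pool.Agent.V5helper93.SMQ.BC
import Pool.Agent.V5helper93.SMQ.Der
import Pool.Agent.V5helper93.SMP.PolyI

/-!
# The values of stable spaces of traceless block symmetric maps
-/

set_option autoImplicit false
set_option linter.unusedSectionVars false

namespace Pool.Agent.V5helper93.SMQ

open Module TensorProduct Polynomial Pool.Agent.H204R3.SP Pool.Agent.V5helper93.GTC
  Pool.Agent.W529.Ta Pool.Agent.Y128.GT

open Pool.Agent.V5helper93.SMP (mulMap mulMap_apply ctr ctr_res res ctr_Fm BigImage UnitFrobenius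
  vals vals_stable DP field3 field4 units_card update_e)

open Pool.Agent.V5helper93.SMP.PT (Inv Rf Rr fun_top)

noncomputable section

variable {k T W Γ : Type} [Field k] [CharZero k] [AddCommGroup T] [Module k T]
  [FiniteDimensional k T] [AddCommGroup W] [Module k W] [Group Γ]

/-! ### the Lie algebra over an extension -/

section ext

variable {K : Type} [Field K] [CharZero K] [Algebra k K]

theorem XX_bc (ε : ℤ) (B : T →ₗ[k] T →ₗ[k] k) (c c' : K) (a a' : T) :
    XX ε (bcb K B) (c ⊗ₜ[k] a) (c' ⊗ₜ[k] a') = (c * c') • (XX ε B a a').baseChange K := by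
  refine LinearMap.ext fun z => ?_
  induction z with
  | zero => rw [map_zero, map_zero]
  | add x y hx hy => rw [map_add, map_add, hx, hy]
  | tmul r v =>
    rw [XX_apply, LinearMap.smul_apply, LinearMap.baseChange_tmul, XX_apply, bcb_tmul, bcb_tmul,
      tmul_sub, tmul_smul, tmul_smul, smul_sub]
    simp only [Int.cast_smul_eq_zsmul, tmul_smul]
    simp only [TensorProduct.smul_tmul', smul_eq_mul, Algebra.smul_def]
    congr 2
    · ring
    · rw [map_intCast, eq_intCast]
      ring

theorem XX_add_left {X : Type} [AddCommGroup X] [Module K X] (ε : ℤ) (B : X →ₗ[K] X →ₗ[K] K)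
    (u u' v : X) : XX ε B (u + u') v = XX ε B u v + XX ε B u' v := by
  ext z
  simp only [XX_apply, LinearMap.add_apply, map_add, add_smul, smul_add]
  abel

theorem XX_add_right {X : Type} [AddCommGroup X] [Module K X] (ε : ℤ) (B : X →ₗ[K] X →ₗ[K] K)
    (u v v' : X) : XX ε B u (v + v') = XX ε B u v + XX ε B u v' := by
  ext z
  simp only [XX_apply, LinearMap.add_apply, map_add, add_smul, smul_add]
  abel

theorem XX_zero_left {X : Type} [AddCommGroup X] [Module K X] (ε : ℤ) (B : X →ₗ[K] X →ₗ[K] K)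
    (v : X) : XX ε B 0 v = 0 := by
  ext z
  simp [XX_apply]

theorem XX_zero_right {X : Type} [AddCommGroup X] [Module K X] (ε : ℤ)
    (B : X →ₗ[K] X →ₗ[K] K) (v : X) : XX ε B v 0 = 0 := by
  ext z
  simp [XX_apply]

/-- Stability over the extension. -/
theorem stable_ext {ε : ℤ} {B : T →ₗ[k] T →ₗ[k] k} {ν : Type} [Fintype ν] [DecidableEq ν]
    (b : Basis ν k T) {σ : Type} [Fintype σ] [DecidableEq σ]
    {U : Submodule k (MultilinearMap k (fun _ : σ => T) W)}
    (hU : ∀ a c, ∀ f ∈ U, dW (XX ε B a c) f ∈ U) (μ : Dual K (K ⊗[k] W)) (u v : K ⊗[k] T) :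
    ∀ F ∈ Submodule.span K ((Fm b μ) '' (U : Set (MultilinearMap k (fun _ : σ => T) W))),
      dF (XX ε (bcb K B) u v) F ∈
        Submodule.span K ((Fm b μ) '' (U : Set (MultilinearMap k (fun _ : σ => T) W))) := by
  intro F hF
  induction hF using Submodule.span_induction with
  | zero => rw [map_zero]; exact Submodule.zero_mem _
  | add x y _ _ hx hy => rw [map_add]; exact Submodule.add_mem _ hx hy
  | smul r x _ hx => rw [map_smul]; exact Submodule.smul_mem _ _ hx
  | mem F hF =>
    obtain ⟨f, hf, rfl⟩ := hF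
    induction u with
    | zero => rw [XX_zero_left, dF_zero]; exact Submodule.zero_mem _
    | add u u' hu hu' => rw [XX_add_left, dF_add]; exact Submodule.add_mem _ hu hu'
    | tmul c a =>
      induction v with
      | zero => rw [XX_zero_right, dF_zero]; exact Submodule.zero_mem _
      | add v v' hv hv' => rw [XX_add_right, dF_add]; exact Submodule.add_mem _ hv hv'
      | tmul c' a' =>
        rw [XX_bc, dF_smul, Fm_dW]
        exact Submodule.smul_mem _ _ (Submodule.subset_span ⟨_, hU a a' f hf, rfl⟩)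

end ext

/-! ### the operators on an adapted basis -/

section fab

variable {K : Type} [Field K] [CharZero K] [IsAlgClosed K] {X : Type} [AddCommGroup X]
  [Module K X] {ε : ℤ} {B : X →ₗ[K] X →ₗ[K] K} {g : Module.End K X}
  {ι : Type} [DecidableEq ι] [Fintype ι] {e : Basis ι K X} {bar : ι → ι} {s : ι → ℤ} {α : ι → K}
  {σ : Type} [Fintype σ] [DecidableEq σ]

theorem XX_e (h : Sys ε B g e bar s α) (x y z : ι) : XX ε B (e (bar x)) (e (bar y)) (e z) =
    ((ε : K) * (s x : K)) • (if z = x then e (bar y) else 0) -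
      (s y : K) • (if z = y then e (bar x) else 0) := by
  have hee := h.hI.ee (K := K)
  rw [XX_apply, h.form, h.form, h.hI.inv, h.hI.inv, h.hI.sb, h.hI.sb]
  congr 1
  · split_ifs
    · rfl
    · rw [zero_smul, smul_zero]
  · split_ifs
    · rw [smul_smul, ← mul_assoc, hee, one_mul]
    · rw [zero_smul, smul_zero, smul_zero]

/-- the coefficients -/
def cf (e : Basis ι K X) (σ : Type) [Fintype σ] [DecidableEq σ] :
    MultilinearMap K (fun _ : σ => X) K →ₗ[K] ((σ → ι) → K) where
  toFun F J := F fun l => e (J l)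
  map_add' _ _ := rfl
  map_smul' _ _ := rfl

theorem cf_apply (F : MultilinearMap K (fun _ : σ => X) K) (J : σ → ι) :
    cf e σ F J = F fun l => e (J l) := rfl

theorem Rf_e (h : Sys ε B g e bar s α) (F : MultilinearMap K (fun _ : σ => X) K) (x y : ι) :
    Rf ε bar s x y (cf e σ F) = cf e σ (dF (XX ε B (e (bar x)) (e (bar y))) F) := by
  funext J
  rw [cf_apply, dF_apply, Rf, Pi.sub_apply, Pi.smul_apply, Pi.smul_apply, Rr, Rr,
    Finset.smul_sum, Finset.smul_sum, ← Finset.sum_sub_distrib]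
  refine Finset.sum_congr rfl fun j _ => ?_
  rw [XX_e h, MultilinearMap.map_update_sub, MultilinearMap.map_update_smul,
    MultilinearMap.map_update_smul]
  congr 1
  · congr 1
    split_ifs
    · rw [cf_apply, update_e]
    · rw [MultilinearMap.map_update_zero]
  · congr 1
    split_ifs
    · rw [cf_apply, update_e]
    · rw [MultilinearMap.map_update_zero]

/-- The main lemma on traceless forms. -/
theorem top_e (h : Sys ε B g e bar s α) (P : ι → Prop) [DecidablePred P]
    (hP : ∀ x, P x → ¬ P (bar x)) {m : ℕ} (β : σ → Fin m)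
    (h1 : ε = 1 → 2 * m < Fintype.card ι)
    (h2 : m ≤ (Finset.univ.filter fun x => P x).card)
    (S : Submodule K (MultilinearMap K (fun _ : σ => X) K))
    (hsym : ∀ F ∈ S, F ∈ symMaps β)
    (hS : ∀ u v, ∀ F ∈ S, dF (XX ε B u v) F ∈ S)
    (hctr : ∀ F ∈ S, ∀ (x y : σ) (hxy : x ≠ y), ctr hxy e (fun z => (s z : K) • e (bar z)) F = 0)
    (hvan : ∀ F ∈ S, ∀ J : σ → ι, (∀ j, P (J j)) → F (fun l => e (J l)) = 0) : S = ⊥ := by
  have h3 : S.map (cf e σ) = ⊥ := by
    refine fun_top (P := P) h.hI hP β h2 h1 _ ?_ ?_ ?_ ?_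
    · rintro _ ⟨F, hF, rfl⟩ π hπ J
      exact hsym F hF π hπ fun l => e (J l)
    · rintro _ ⟨F, hF, rfl⟩ x y
      exact ⟨_, hS (e (bar x)) (e (bar y)) F hF, (Rf_e h F x y).symm⟩
    · rintro _ ⟨F, hF, rfl⟩ i j hij J
      have h4 := ctr_e (e := e) (bar := bar) (s := s) F hij J
      rw [hctr F hF i j hij] at h4
      have h5 : ∑ x, (s x : K) * cf e σ F (Function.update (Function.update J i x) j (bar x)) =
          CS bar s i j (fun J => F fun l => e (J l)) J := by
        rw [CS]
        refine Finset.sum_congr rfl fun x _ => ?_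
        rw [zsmul_eq_mul]
        rfl
      rw [h5, ← h4]
      rfl
    · rintro _ ⟨F, hF, rfl⟩ J hJ
      exact hvan F hF J hJ
  rw [eq_bot_iff]
  intro F hF
  have h4 : cf e σ F = 0 := by
    have h5 : cf e σ F ∈ S.map (cf e σ) := ⟨F, hF, rfl⟩
    rw [h3] at h5
    exact (Submodule.mem_bot K).1 h5
  exact (Submodule.mem_bot K).2 (ext_e (e := e) h4)

end fab

variable [FiniteDimensional k W] {ε : ℤ} {B : T →ₗ[k] T →ₗ[k] k} {ρ : Representation k Γ T}
  {χ : Γ →* k} {w : ℕ} {τ : Representation k Γ W}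

theorem Fm_sym {K : Type} [Field K] [CharZero K] [Algebra k K] {nu : Type} [Fintype nu]
    [DecidableEq nu] (b : Basis nu k T) {σ I : Type} [Fintype σ] [DecidableEq σ] {β : σ → I}
    {f : MultilinearMap k (fun _ : σ => T) W} (hf : f ∈ symMaps β) (μ : Dual K (K ⊗[k] W)) :
    Fm b μ f ∈ symMaps β := by
  intro π hπ v
  have h1 : (Fm b μ f).domDomCongr π = Fm b μ f := Fm_eq b fun v => by
    change Fm b μ f (fun j => (1 : K) ⊗ₜ[k] v (π j)) = _
    rw [Fm_one b μ f fun j => v (π j), hf π hπ]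
  exact congrArg (fun F : MultilinearMap K (fun _ : σ => K ⊗[k] T) K => F v) h1

/-- The forms attached to a functional are zero if they vanish on the tuples of basis vectors of slope
zero. -/
theorem forms_zero {K : Type} [Field K] [CharZero K] [IsAlgClosed K] [Algebra k K] {nu : Type}
    [Fintype nu]
    [DecidableEq nu] (b : Basis nu k T) (h : Polarized ε B ρ χ w) (big : BigImage B ρ τ)
    {σ : Type} [Fintype σ] [DecidableEq σ] {m : ℕ} {β : σ → Fin m}
    {U : Submodule k (MultilinearMap k (fun _ : σ => T) W)}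
    (hsym : ∀ f ∈ U, f ∈ symMaps β)
    (hU : ∀ s, ∀ f ∈ U, mulMap ρ τ σ s f ∈ U)
    {ι₀ : Type} [Fintype ι₀] {d d' : ι₀ → T}
    (hd : DP B d d') (hctr : ∀ f ∈ U, ∀ (x y : σ) (hxy : x ≠ y), ctr hxy d d' f = 0)
    {g : Module.End K (K ⊗[k] T)} {ι : Type} [Fintype ι] [DecidableEq ι]
    {e : Basis ι K (K ⊗[k] T)} {bar : ι → ι} {s : ι → ℤ} {α : ι → K}
    (hsys : Sys ε (bcb K B) g e bar s α)
    (μ : Dual K (K ⊗[k] W)) (P : ι → Prop) [DecidablePred P] (hP : ∀ x, P x → ¬ P (bar x))
    (h1 : ε = 1 → 2 * m < Fintype.card ι)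
    (h2 : m ≤ (Finset.univ.filter fun x => P x).card)
    (hvan : ∀ f ∈ U, ∀ J : σ → ι, (∀ j, P (J j)) → Fm b μ f (fun l => e (J l)) = 0) :
    ∀ f ∈ U, Fm b μ f = 0 := by
  have hstab : ∀ u v, ∀ F ∈ Submodule.span K ((Fm b μ) ''
      (U : Set (MultilinearMap k (fun _ : σ => T) W))), dF (XX ε (bcb K B) u v) F ∈
        Submodule.span K ((Fm b μ) '' (U : Set (MultilinearMap k (fun _ : σ => T) W))) :=
    fun u v F hF => stable_ext b
      (fun a c f hf => der_stable h.sign big h.symm h.nondeg hU hf a c) μ u v F hF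
  have hS := top_e hsys P hP β h1 h2 (Submodule.span K ((Fm b μ) ''
      (U : Set (MultilinearMap k (fun _ : σ => T) W))))
    (fun F hF => by
      induction hF using Submodule.span_induction with
      | zero => exact Submodule.zero_mem _
      | add x y _ _ hx hy => exact Submodule.add_mem _ hx hy
      | smul r x _ hx => exact Submodule.smul_mem _ _ hx
      | mem F hF =>
        obtain ⟨f, hf, rfl⟩ := hF
        exact Fm_sym b (hsym f hf) μ) hstab
    (fun F hF x y hxy => by
      induction hF using Submodule.span_induction with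
      | zero => rw [map_zero]
      | add x y _ _ hx hy => rw [map_add, hx, hy, add_zero]
      | smul r x _ hx => rw [map_smul, hx, smul_zero]
      | mem F hF =>
        obtain ⟨f, hf, rfl⟩ := hF
        rw [ctr_Fm b hd hsys.dp, hctr f hf, map_zero])
    (fun F hF J hJ => by
      induction hF using Submodule.span_induction with
      | zero => rfl
      | add x y _ _ hx hy => rw [add_apply, hx, hy, add_zero]
      | smul r x _ hx => rw [smul_apply, hx, smul_zero]
      | mem F hF =>
        obtain ⟨f, hf, rfl⟩ := hF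
        exact hvan f hf J hJ)
  intro f hf
  have h1 : Fm b μ f ∈ Submodule.span K ((Fm b μ) ''
      (U : Set (MultilinearMap k (fun _ : σ => T) W))) :=
    Submodule.subset_span ⟨f, hf, rfl⟩
  rw [hS] at h1
  exact (Submodule.mem_bot K).1 h1

/-- **The values of traceless maps.** -/
theorem vals_entire (h : Polarized ε B ρ χ w) (hw : 0 < w) (big : BigImage B ρ τ) {m p a : ℕ}
    (hp : p.Prime) (ha : 0 < a) {γ : Γ} (hγ : UnitFrobenius ρ χ m p a γ)
    {σ : Type} [Fintype σ] [DecidableEq σ] {β : σ → Fin m}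
    (hm : ε = 1 → 2 * m < finrank k T) {ν : ℕ}
    {U : Submodule k (MultilinearMap k (fun _ : σ => T) W)}
    (hsym : ∀ f ∈ U, f ∈ symMaps β)
    (hU : ∀ s, ∀ f ∈ U, mulMap ρ τ σ s f ∈ U)
    (hE : EntireOn p a ν (mulMap ρ τ σ γ⁻¹) U) {ι₀ : Type} [Fintype ι₀] {d d' : ι₀ → T}
    (hd : DP B d d') (hctr : ∀ f ∈ U, ∀ (x y : σ) (hxy : x ≠ y), ctr hxy d d' f = 0) :
    EntireOn p a ν (τ γ⁻¹) (vals U) := by
  classical
  let K := AlgebraicClosure k
  obtain ⟨Q, hQm, hQU, hQβ⟩ := hE
  let b := Module.finBasis k T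
  have hDP := hd.bc (K := K)
  set q : K := (p : K) ^ a with hq
  have hp0 : (p : K) ≠ 0 := Nat.cast_ne_zero.2 hp.ne_zero
  have hq0 : q ≠ 0 := pow_ne_zero _ hp0
  let χ' : Γ →* k := (powMonoidHom w : k →* k).comp χ
  have hχ : bcc χ' K γ = q ^ w := by
    rw [bcc_apply]
    change algebraMap k K (χ γ ^ w) = q ^ w
    rw [hγ.cyc, map_pow, map_pow, map_natCast]
  -- an adapted basis
  obtain ⟨ι, _, _, e, bar, s, α, hsys⟩ := exists_sys (K := K) (V := K ⊗[k] T) (B := bcb K B)
    h.sign (g := bcr ρ K γ) (μ := q ^ w) (pow_ne_zero w hq0) (bcb_symm h.symm) hDP.nondeg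
    (fun u v => by rw [← hχ]; exact bcb_inv ρ χ' B h.sim γ u v)
    (semisimple_bc K (ρ γ) hγ.semisimple)
  have hcard : Fintype.card ι = finrank k T := by
    have h1 : finrank K (K ⊗[k] T) = finrank k T := Module.finrank_baseChange
    rw [← h1, Module.finrank_eq_card_basis e]
  have hαα : ∀ x, α x * α (bar x) = q ^ w := hsys.aa (fun u v => by
    rw [← hχ]; exact bcb_inv ρ χ' B h.sim γ u v)
  obtain ⟨P, hP, j, hj, hPj⟩ := hγ.units
  have hPK : P.map (Int.castRingHom K) = ∏ x, (X - C (α x)) := by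
    rw [← charpoly_eigbasis e (bcr ρ K γ) α hsys.eig]
    change _ = ((ρ γ).baseChange K).charpoly
    rw [LinearMap.charpoly_baseChange, ← hP, Polynomial.map_map]
    congr 1
  have hα0 : ∀ x, α x ≠ 0 := by
    intro x h0
    apply pow_ne_zero w hq0
    rw [← hαα x, h0, zero_mul]
  have hPm : P.Monic := by
    refine Polynomial.monic_of_injective (RingHom.injective_int (Int.castRingHom K)) ?_
    rw [hPK]
    exact monic_prod_of_monic _ _ fun x _ => monic_X_sub_C _
  have hαint : ∀ x, IsIntegral ℤ (α x) := by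
    intro x
    refine ⟨P, hPm, ?_⟩
    have h1 : (P.map (Int.castRingHom K)).eval (α x) = 0 := by
      rw [hPK, eval_prod]
      exact Finset.prod_eq_zero (Finset.mem_univ x) (by rw [eval_sub, eval_X, eval_C, sub_self])
    rw [← h1, ← eval_map]
    exact congrArg (fun t : ℤ →+* K => (P.map t).eval (α x)) (RingHom.ext_int _ _)
  have he' : ∀ x, bcr ρ K γ⁻¹⁻¹ (e x) = α x • e x := fun x => by rw [inv_inv]; exact hsys.eig x
  have hYst := vals_stable hU
  set R := τ γ⁻¹ with hR
  refine ⟨(R.restrict (hYst γ⁻¹)).charpoly, LinearMap.charpoly_monic _, fun y hy => ?_,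
    fun β hβ => ?_⟩
  · have h1 := aeval_inter (R.restrict (hYst γ⁻¹)) R (vals U).subtype (fun _ => rfl)
      (R.restrict (hYst γ⁻¹)).charpoly ⟨y, hy⟩
    rw [LinearMap.aeval_self_charpoly, LinearMap.zero_apply, map_zero] at h1
    exact h1.symm
  refine integral_of_forall fun A => ?_
  have hαA : ∀ x, α x ∈ A := fun x => mem_of_integral A (hαint x)
  -- the good and the bad eigenvalues
  set D : Module.End K (Dual K (K ⊗[k] W)) := (R.baseChange K).dualMap with hD
  obtain ⟨G, Bd, hGB, hG, hB⟩ := split_poly D (fun r => r / q ^ ν ∈ A)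
  -- it suffices to prove that the bad part kills the values
  suffices hkey : ∀ l : Dual K (K ⊗[k] W), ∀ y ∈ vals U,
      (aeval D G l) ((1 : K) ⊗ₜ[k] y) = 0 by
    refine hG β (root_of_kill R _ (hYst γ⁻¹) G (fun y hy => ?_) β hβ)
    refine (Module.forall_dual_apply_eq_zero_iff K _).1 fun l => ?_
    rw [← dualMap_aeval]
    exact hkey l y hy
  intro l
  set μ := aeval D G l with hμ
  have hBμ : aeval D Bd μ = 0 := by
    rw [hμ, ← Module.End.mul_apply, ← map_mul, hGB, LinearMap.zero_apply]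
  -- the forms vanish on vectors of slope zero
  have hvan : ∀ f ∈ U, ∀ I : σ → ι, (∏ l, α (I l))⁻¹ ∈ A →
      Fm b μ f (fun l => e (I l)) = 0 := by
    intro f hf I hI
    refine Fm_vanish b ρ τ e γ⁻¹ he' hBμ (hQU f hf) I fun r hr h0 => hB r hr ?_
    have h1 := mem_of_integral A (hQβ _ h0)
    have hne : (∏ l, α (I l)) ≠ 0 := Finset.prod_ne_zero_iff.2 fun l _ => hα0 _
    have h2 : r / q ^ ν = ((∏ l, α (I l)) * r / q ^ ν) * (∏ l, α (I l))⁻¹ := field3 hne r _
    rw [h2]
    exact A.mul_mem _ _ h1 hI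
  -- the forms are zero
  have hzero : ∀ f ∈ U, Fm b μ f = 0 := by
    by_cases hpA : ((p : K))⁻¹ ∈ A
    · intro f hf
      refine Basis.ext_multilinear (fun _ => e) fun I => ?_
      rw [hvan f hf I]
      · rfl
      rw [← Finset.prod_inv_distrib]
      refine prod_mem fun l _ => ?_
      have h2 : (α (I l))⁻¹ = (q ^ w)⁻¹ * α (bar (I l)) := by
        rw [← hαα (I l)]
        exact field2 (hα0 (I l)) (hα0 (bar (I l)))
      rw [h2]
      refine A.mul_mem _ _ ?_ (hαA _)
      rw [hq, ← inv_pow, ← inv_pow]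
      exact A.pow_mem (A.pow_mem hpA a) w
    · -- the units
      let Un : Finset ι := Finset.univ.filter fun x => (α x)⁻¹ ∈ A
      have hUn := units_card α A hαA hp hpA P hPK (j := j) (m := m) (by rw [hcard]; exact hj) hPj
        Un (fun x => by simp [Un])
      refine forms_zero b h big hsym hU hd hctr hsys μ (fun x => (α x)⁻¹ ∈ A) (fun x hx hx' => ?_)
        (fun he => by rw [hcard]; exact hm he) hUn (fun f hf J hJ => ?_)
      · apply hpA
        have h1 : (q ^ w)⁻¹ ∈ A := by
          rw [← hαα x, mul_inv]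
          exact A.mul_mem _ _ hx hx'
        have h2 : (p : K)⁻¹ = (q ^ w)⁻¹ * (p : K) ^ (a * w - 1) := by
          have h3 : a * w - 1 + 1 = a * w := Nat.sub_add_cancel (Nat.mul_pos ha hw)
          have h4 : q ^ w = (p : K) ^ (a * w - 1) * p := by
            rw [hq, ← pow_mul, ← pow_succ, h3]
          rw [h4]
          exact field4 (pow_ne_zero _ hp0)
        rw [h2]
        exact A.mul_mem _ _ h1 (A.pow_mem (natCast_mem A p) _)
      · refine hvan f hf J ?_
        rw [← Finset.prod_inv_distrib]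
        exact prod_mem fun l _ => hJ l
  intro y hy
  induction hy using Submodule.span_induction with
  | zero => rw [tmul_zero, map_zero]
  | add x y _ _ hx hy => rw [tmul_add, map_add, hx, hy, add_zero]
  | smul r x _ hx => rw [tmul_smul, ← algebraMap_smul K r (1 ⊗ₜ[k] x : K ⊗[k] W), map_smul, hx,
      smul_zero]
  | mem y hy =>
    obtain ⟨f, hf, v, rfl⟩ := hy
    rw [← Fm_one b, hzero f hf]
    rfl

end

end Pool.Agent.V5helper93.SMQ
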